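import Mathlib

/-!
# Kalai's conjecture on tight trees: basic tools

`nb H g` is the set of the vertices `w` with `g ∪ {w} ∈ H`. If `H` has more than `μ |∂H|` members then
a subfamily has this property too and all its positive codegrees are larger than `μ`
(`exists_pruned`). Embeddings are extended one vertex at a time (`Emb.step`), leaf edges are attached
under a condition of Hall type (`Emb.leaves`).
-/

namespace Pool.Agent.MP02973f

open Finset
open scoped FinsetFamily

variable {α V : Type*} [DecidableEq α] [DecidableEq V] [Fintype V]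

/-- the vertices which extend `g` to a member of `H` -/
def nb (H : Finset (Finset V)) (g : Finset V) : Finset V := univ.filter fun w => insert w g ∈ H

theorem mem_nb {H : Finset (Finset V)} {g : Finset V} {w : V} :
    w ∈ nb H g ↔ insert w g ∈ H := by
  simp [nb]

omit [Fintype V] in
theorem card_shadow_mem {H : Finset (Finset V)} {r : ℕ} (hH : ∀ E ∈ H, E.card = r)
    {g : Finset V} (hg : g ∈ ∂ H) : g.card + 1 = r := by
  obtain ⟨a, ha, h⟩ := mem_shadow_iff_insert_mem.1 hg
  rw [← hH _ h, card_insert_of_notMem ha]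

/-- members of `nb` do not lie in `g` -/
theorem notMem_of_nb {H : Finset (Finset V)} {r : ℕ} (hH : ∀ E ∈ H, E.card = r) {g : Finset V}
    (hg : g.card + 1 ≤ r) {w : V} (hw : w ∈ nb H g) : w ∉ g := by
  intro h
  have h1 := hH _ (mem_nb.1 hw)
  rw [insert_eq_self.2 h] at h1
  omega

theorem nb_nonempty_iff {H : Finset (Finset V)} {r : ℕ} (hH : ∀ E ∈ H, E.card = r)
    {g : Finset V} (hg : g.card + 1 ≤ r) : (nb H g).Nonempty ↔ g ∈ ∂ H := by
  constructor
  · rintro ⟨w, hw⟩
    exact mem_shadow_iff_insert_mem.2 ⟨w, notMem_of_nb hH hg hw, mem_nb.1 hw⟩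
  · intro h
    obtain ⟨a, _, h⟩ := mem_shadow_iff_insert_mem.1 h
    exact ⟨a, mem_nb.2 h⟩

theorem card_filter_le_nb {H : Finset (Finset V)} {r : ℕ} (hH : ∀ E ∈ H, E.card = r)
    {g : Finset V} (hg : g.card + 1 = r) :
    (H.filter fun E => g ⊆ E).card ≤ (nb H g).card := by
  have h1 : (H.filter fun E => g ⊆ E) ⊆ (nb H g).image fun w => insert w g := by
    intro E hE
    rw [mem_filter] at hE
    have h2 := hH E hE.1
    have h3 : (E \ g).card = 1 := by
      rw [card_sdiff_of_subset hE.2]
      omega
    obtain ⟨w, hw⟩ := card_eq_one.1 h3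
    have h4 : insert w g = E := by
      rw [insert_eq, ← hw, sdiff_union_of_subset hE.2]
    rw [mem_image]
    exact ⟨w, mem_nb.2 (by rw [h4]; exact hE.1), h4⟩
  exact (card_le_card h1).trans card_image_le

theorem exists_pruned {r : ℕ} {μ : ℝ} (hμ : 0 ≤ μ) (H : Finset (Finset V))
    (hH : ∀ E ∈ H, E.card = r) (h : μ * (∂ H).card < H.card) :
    ∃ H' ⊆ H, μ * (∂ H').card < H'.card ∧ ∀ g ∈ ∂ H', μ < (nb H' g).card := by
  induction hn : H.card using Nat.strong_induction_on generalizing H with
  | _ n ih =>
    by_cases hall : ∀ g ∈ ∂ H, μ < (nb H g).card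
    · exact ⟨H, Subset.rfl, h, hall⟩
    · push Not at hall
      obtain ⟨g, hg, hle⟩ := hall
      have hgr := card_shadow_mem hH hg
      have hc := card_filter_le_nb hH hgr
      have hsplit := card_filter_add_card_filter_not (s := H) (fun E => g ⊆ E)
      have hsub : (H.filter fun E => ¬ g ⊆ E) ⊆ H := filter_subset _ _
      have hlt : (H.filter fun E => ¬ g ⊆ E).card < H.card := by
        apply card_lt_card
        rw [ssubset_iff_of_subset hsub]
        obtain ⟨a, _, ha⟩ := mem_shadow_iff_insert_mem.1 hg
        refine ⟨insert a g, ha, ?_⟩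
        simp
      have hsh : ∂ (H.filter fun E => ¬ g ⊆ E) ⊆ (∂ H).erase g := by
        intro x hx
        rw [mem_erase]
        refine ⟨?_, shadow_mono hsub hx⟩
        rintro rfl
        obtain ⟨s, hs, hs'⟩ := exists_subset_of_mem_shadow hx
        exact (mem_filter.1 hs).2 hs'
      have hshc := card_le_card hsh
      rw [card_erase_of_mem hg] at hshc
      have hpos : 0 < (∂ H).card := card_pos.2 ⟨g, hg⟩
      have h2 : μ * (∂ (H.filter fun E => ¬ g ⊆ E)).card <
          ((H.filter fun E => ¬ g ⊆ E).card : ℝ) := by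
        have e1 : ((∂ (H.filter fun E => ¬ g ⊆ E)).card : ℝ) ≤ (∂ H).card - 1 := by
          have : (∂ (H.filter fun E => ¬ g ⊆ E)).card + 1 ≤ (∂ H).card := by omega
          have h3 : (((∂ (H.filter fun E => ¬ g ⊆ E)).card + 1 : ℕ) : ℝ) ≤ ((∂ H).card : ℕ) := by
            exact_mod_cast this
          push_cast at h3
          linarith
        have e2 : ((H.filter fun E => g ⊆ E).card : ℝ) ≤ (nb H g).card := by exact_mod_cast hc
        have e3 : ((H.filter fun E => g ⊆ E).card : ℝ) + (H.filter fun E => ¬ g ⊆ E).card =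
            H.card := by exact_mod_cast hsplit
        have e4 := mul_le_mul_of_nonneg_left e1 hμ
        linarith
      obtain ⟨H', h3, h4, h5⟩ := ih _ (by omega) (H.filter fun E => ¬ g ⊆ E)
        (fun E hE => hH E (hsub hE)) h2 rfl
      exact ⟨H', h3.trans hsub, h4, h5⟩

/-- `φ` is injective on `U` and maps the members of `F`, subsets of `U`, to members of `H` -/
def Emb (H : Finset (Finset V)) (U : Finset α) (F : Finset (Finset α)) (φ : α → V) : Prop :=
  Set.InjOn φ U ∧ ∀ e ∈ F, e ⊆ U ∧ e.image φ ∈ H

omit [Fintype V] in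
theorem image_update_of_notMem {φ : α → V} {S : Finset α} {v : α} {w : V} (hv : v ∉ S) :
    S.image (Function.update φ v w) = S.image φ := by
  refine image_congr fun x hx => ?_
  have : x ≠ v := by
    rintro rfl
    exact hv (by simpa using hx)
  simp [this]

omit [Fintype V] in
theorem image_update_insert {φ : α → V} {S : Finset α} {v : α} {w : V} (hv : v ∉ S) :
    (insert v S).image (Function.update φ v w) = insert w (S.image φ) := by
  rw [image_insert, image_update_of_notMem hv, Function.update_self]

theorem Emb.step {H : Finset (Finset V)} {r : ℕ} (hH : ∀ E ∈ H, E.card = r) {φ : α → V}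
    {U : Finset α} {F : Finset (Finset α)} (h : Emb H U F φ) {S : Finset α} {v : α} (hS : S ⊆ U)
    (hSr : S.card + 1 = r) (hv : v ∉ U)
    (hd : U.card < S.card + (nb H (S.image φ)).card) :
    ∃ φ' : α → V, Emb H (insert v U) (insert (insert v S) F) φ' ∧ ∀ x ∈ U, φ' x = φ x := by
  have hvS : v ∉ S := fun h1 => hv (hS h1)
  have hex : ∃ w ∈ nb H (S.image φ), w ∉ U.image φ := by
    by_contra hcon
    push Not at hcon
    have h1 : nb H (S.image φ) ⊆ (U \ S).image φ := by
      intro w hw
      have h2 := hcon w hw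
      rw [mem_image] at h2 ⊢
      obtain ⟨x, hx, hxw⟩ := h2
      refine ⟨x, ?_, hxw⟩
      rw [mem_sdiff]
      refine ⟨hx, fun hxS => ?_⟩
      have h3 : (S.image φ).card + 1 ≤ r := by
        have := card_image_le (s := S) (f := φ)
        omega
      exact notMem_of_nb hH h3 hw (mem_image.2 ⟨x, hxS, hxw⟩)
    have h2 := (card_le_card h1).trans card_image_le
    rw [card_sdiff_of_subset hS] at h2
    have h3 := card_le_card hS
    omega
  obtain ⟨w, hw, hwU⟩ := hex
  have hag : ∀ x ∈ U, Function.update φ v w x = φ x := by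
    intro x hx
    have : x ≠ v := by
      rintro rfl
      exact hv hx
    simp [this]
  refine ⟨Function.update φ v w, ⟨?_, ?_⟩, hag⟩
  · intro x hx y hy hxy
    rw [mem_coe, mem_insert] at hx hy
    rcases hx with rfl | hx <;> rcases hy with rfl | hy
    · rfl
    · rw [Function.update_self, hag y hy] at hxy
      exact absurd (mem_image.2 ⟨y, hy, hxy.symm⟩) hwU
    · rw [Function.update_self, hag x hx] at hxy
      exact absurd (mem_image.2 ⟨x, hx, hxy⟩) hwU
    · rw [hag x hx, hag y hy] at hxy
      exact h.1 hx hy hxy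
  · intro e he
    rw [mem_insert] at he
    rcases he with rfl | he
    · refine ⟨insert_subset_insert _ hS, ?_⟩
      rw [image_update_insert hvS]
      exact mem_nb.1 hw
    · obtain ⟨h1, h2⟩ := h.2 e he
      refine ⟨h1.trans (subset_insert _ _), ?_⟩
      rw [image_update_of_notMem fun h3 => hv (h1 h3)]
      exact h2

theorem Emb.leaves {ι : Type*} [DecidableEq ι] {H : Finset (Finset V)} {r : ℕ}
    (hH : ∀ E ∈ H, E.card = r)
    {φ : α → V} {U : Finset α} {F : Finset (Finset α)} (h : Emb H U F φ) (L : Finset ι)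
    (v : ι → α) (S : ι → Finset α) (hS : ∀ i ∈ L, S i ⊆ U) (hSr : ∀ i ∈ L, (S i).card + 1 = r)
    (hv : ∀ i ∈ L, v i ∉ U) (hvi : Set.InjOn v L)
    (hall : ∀ L' ⊆ L, L'.Nonempty → ∃ i ∈ L', U.card + L'.card ≤
      (S i).card + (nb H ((S i).image φ)).card) :
    ∃ φ' : α → V, Emb H (U ∪ L.image v) (F ∪ L.image fun i => insert (v i) (S i)) φ' ∧
      ∀ x ∈ U, φ' x = φ x := by
  induction hn : L.card generalizing L with
  | zero =>
    rw [card_eq_zero] at hn
    subst hn
    exact ⟨φ, by simpa using h, fun _ _ => rfl⟩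
  | succ n ih =>
    have hne : L.Nonempty := by
      rw [← card_pos]
      omega
    obtain ⟨i, hi, hd⟩ := hall L Subset.rfl hne
    have hsub : L.erase i ⊆ L := erase_subset _ _
    obtain ⟨φ', h1, h2⟩ := ih (L.erase i) (fun j hj => hS j (hsub hj))
      (fun j hj => hSr j (hsub hj)) (fun j hj => hv j (hsub hj))
      (fun x hx y hy hxy => hvi (hsub hx) (hsub hy) hxy)
      (fun L' hL' => hall L' (hL'.trans hsub)) (by rw [card_erase_of_mem hi]; omega)
    have himg : (S i).image φ' = (S i).image φ :=
      image_congr fun x hx => h2 x (hS i hi (by simpa using hx))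
    have hvi' : v i ∉ U ∪ (L.erase i).image v := by
      rw [mem_union, mem_image]
      rintro (h3 | ⟨j, hj, hji⟩)
      · exact hv i hi h3
      · exact (mem_erase.1 hj).1 (hvi (hsub hj) hi hji)
    have hcard : (U ∪ (L.erase i).image v).card < (S i).card + (nb H ((S i).image φ')).card := by
      have h3 := card_union_le U ((L.erase i).image v)
      have h4 : ((L.erase i).image v).card ≤ (L.erase i).card := card_image_le
      rw [card_erase_of_mem hi] at h4
      rw [himg]
      omega
    obtain ⟨φ'', h5, h6⟩ := h1.step hH ((hS i hi).trans subset_union_left) (hSr i hi) hvi' hcard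
    refine ⟨φ'', ?_, fun x hx => (h6 x (mem_union_left _ hx)).trans (h2 x hx)⟩
    have e1 : L.image v = insert (v i) ((L.erase i).image v) := by
      rw [← image_insert, insert_erase hi]
    have e2 : (L.image fun i => insert (v i) (S i)) =
        insert (insert (v i) (S i)) ((L.erase i).image fun i => insert (v i) (S i)) := by
      rw [← image_insert (fun i => insert (v i) (S i)), insert_erase hi]
    rw [e1, e2, union_insert, union_insert]
    exact h5

end Pool.Agent.MP02973f
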