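import Mathlib

/-!
# Kalai's conjecture on tight trees: the leaves at a facet
-/

namespace Pool.Agent.MP02973f

open Finset

/-- the leaves of the tree `e 0, ..., e (m-1)` at the facet `E \ {y}`: the vertices `v` outside `E`
whose only edge is `E \ {y} ∪ {v}` -/
def leaves {ℓ : ℕ} (e : ℕ → Finset (Fin ℓ)) (m : ℕ) (E : Finset (Fin ℓ)) (y : Fin ℓ) :
    Finset (Fin ℓ) :=
  univ.filter fun v => v ∉ E ∧ ∀ i ∈ range m, v ∈ e i ↔ e i = insert v (E.erase y)

end Pool.Agent.MP02973f
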