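import Pool.Agent.Lib.MP_02973f_co.Mass

/-!
# From the walkers to the copies of a tight tree
-/

set_option autoImplicit false
set_option linter.unusedSectionVars false

open Finset
open scoped Classical

namespace Pool.Agent.Lib.MP_02973f_co

variable {V : Type*} [DecidableEq V] {W : Type*} [DecidableEq W] {r : ℕ}

/-- `T` is the shape of the tight tree with root edge `a`, set `N` of the vertices outside the
root edge and edge set `Es` -/
def Rz : TT r → (Fin r → W) → Finset W → Finset (Finset W) → Prop
  | .single, a, N, Es => N = ∅ ∧ Es = {Finset.univ.image a}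
  | .graft T d B, a, N, Es => ∃ v N₁ N₂ E₁ E₂, Rz T a N₁ E₁ ∧ Rz B (Function.update a d v) N₂ E₂ ∧
      N = insert v (N₁ ∪ N₂) ∧ Es = E₁ ∪ E₂ ∧ v ∉ Finset.univ.image a ∧ v ∉ N₁ ∧ v ∉ N₂ ∧
      Disjoint N₁ N₂ ∧ Disjoint N₁ (Finset.univ.image a) ∧ Disjoint N₂ (Finset.univ.image a)

theorem Rz_disjoint {T : TT r} {a : Fin r → W} {N : Finset W} {Es : Finset (Finset W)}
    (h : Rz T a N Es) : Disjoint N (Finset.univ.image a) := by
  cases T with
  | single => rw [h.1]; exact Finset.disjoint_empty_left _
  | graft T d B =>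
    obtain ⟨v, N₁, N₂, E₁, E₂, -, -, hN, -, hv, -, -, -, h1, h2⟩ := h
    rw [hN, Finset.disjoint_insert_left, Finset.disjoint_union_left]
    exact ⟨hv, h1, h2⟩

theorem image_update_subset (a : Fin r → W) (d : Fin r) (v : W) :
    Finset.univ.image (Function.update a d v) ⊆ insert v (Finset.univ.image a) := by
  intro w hw
  simp only [Finset.mem_image, Finset.mem_univ, true_and] at hw
  obtain ⟨i, rfl⟩ := hw
  by_cases hi : i = d
  · subst hi; simp
  · rw [Function.update_of_ne hi]
    exact Finset.mem_insert_of_mem (Finset.mem_image_of_mem _ (Finset.mem_univ _))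

theorem image_update {a : Fin r → W} (ha : Function.Injective a) (d : Fin r) (v : W) :
    Finset.univ.image (Function.update a d v) = insert v ((Finset.univ.image a).erase (a d)) := by
  ext w
  simp only [Finset.mem_image, Finset.mem_univ, true_and, Finset.mem_insert, Finset.mem_erase]
  constructor
  · rintro ⟨i, rfl⟩
    by_cases hi : i = d
    · left; subst hi; simp
    · right
      rw [Function.update_of_ne hi]
      exact ⟨fun h => hi (ha h), i, rfl⟩
  · rintro (rfl | ⟨h1, i, rfl⟩)
    · exact ⟨d, by simp⟩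
    · refine ⟨i, ?_⟩
      rw [Function.update_of_ne]
      rintro rfl
      exact h1 rfl

theorem update_injective {a : Fin r → W} (ha : Function.Injective a) (d : Fin r) {v : W}
    (hv : v ∉ Finset.univ.image a) : Function.Injective (Function.update a d v) := by
  have hv' : ∀ i, a i ≠ v := fun i h => hv (Finset.mem_image.mpr ⟨i, Finset.mem_univ _, h⟩)
  intro i j hij
  by_cases hi : i = d
  · by_cases hj : j = d
    · rw [hi, hj]
    · subst hi
      rw [Function.update_self, Function.update_of_ne hj] at hij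
      exact absurd hij.symm (hv' j)
  · by_cases hj : j = d
    · subst hj
      rw [Function.update_self, Function.update_of_ne hi] at hij
      exact absurd hij (hv' i)
    · rw [Function.update_of_ne hi, Function.update_of_ne hj] at hij
      exact ha hij

theorem Rz_support : ∀ (T : TT r) (a : Fin r → W) (N : Finset W) (Es : Finset (Finset W)),
    Rz T a N Es → ∀ e ∈ Es, e ⊆ Finset.univ.image a ∪ N := by
  intro T
  induction T with
  | single =>
    rintro a N Es ⟨rfl, rfl⟩ e he
    rw [Finset.mem_singleton] at he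
    rw [he]
    exact Finset.subset_union_left
  | graft T d B ih1 ih2 =>
    rintro a N Es ⟨v, N₁, N₂, E₁, E₂, h1, h2, rfl, rfl, -⟩ e he
    rw [Finset.mem_union] at he
    rcases he with he | he
    · refine (ih1 _ _ _ h1 e he).trans ?_
      intro w hw
      simp only [Finset.mem_union, Finset.mem_insert] at hw ⊢
      tauto
    · refine (ih2 _ _ _ h2 e he).trans ?_
      intro w hw
      rw [Finset.mem_union] at hw
      rcases hw with hw | hw
      · have := image_update_subset a d v hw
        simp only [Finset.mem_union, Finset.mem_insert] at this ⊢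
        tauto
      · simp only [Finset.mem_union, Finset.mem_insert]
        tauto

theorem Rz_card : ∀ (T : TT r) (a : Fin r → W) (N : Finset W) (Es : Finset (Finset W)),
    Rz T a N Es → N.card + 1 = T.size := by
  intro T
  induction T with
  | single =>
    rintro a N Es ⟨rfl, rfl⟩
    simp [TT.size]
  | graft T d B ih1 ih2 =>
    rintro a N Es ⟨v, N₁, N₂, E₁, E₂, h1, h2, rfl, rfl, -, hv1, hv2, hd, -, -⟩
    have e1 := ih1 _ _ _ h1
    have e2 := ih2 _ _ _ h2
    rw [Finset.card_insert_of_notMem (by simp [hv1, hv2]), Finset.card_union_of_disjoint hd]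
    simp only [TT.size]
    omega

theorem rd_ne_zero {L : V → Prop} {k : V → Finset V → ℝ} (R : Finset V) (h : rd L k R ≠ 0) :
    ∃ v ∈ R, ∃ R₂ ⊆ R.erase v, L v ∧ k v R₂ ≠ 0 := by
  induction R using erase_induction with
  | h R ih =>
    rw [rd_eq] at h
    obtain ⟨q, hq, hq'⟩ := Finset.exists_ne_zero_of_sum_ne_zero h
    split_ifs at hq' with hL
    · exact ⟨q, hq, R.erase q, Finset.Subset.refl _, hL, hq'⟩
    · obtain ⟨v, hv, R₂, hR₂, hLv, hk⟩ := ih q hq hq'
      refine ⟨v, Finset.mem_of_mem_erase hv, R₂, ?_, hLv, hk⟩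
      exact hR₂.trans (Finset.erase_subset_erase _ (Finset.erase_subset _ _))

/-- **The walkers embed the tree.** -/
theorem exists_embed (H : Finset (Finset V)) (hr : 0 < r) : ∀ (T : TT r) (a : Fin r → W)
    (N : Finset W) (Es : Finset (Finset W)) (x : Fin r → V) (k : Finset V → ℝ) (R : Finset V),
    Rz T a N Es → Function.Injective a → Ed H x → proc H T x k R ≠ 0 →
    ∃ R' ⊆ R, k R' ≠ 0 ∧ ∃ f : W → V, (∀ i, f (a i) = x i) ∧ (∀ w ∈ N, f w ∈ R \ R') ∧
      Set.InjOn f N ∧ ∀ e ∈ Es, e.image f ∈ H := by
  intro T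
  induction T with
  | single =>
    rintro a N Es x k R ⟨rfl, rfl⟩ ha hx hk
    refine ⟨R, Finset.Subset.refl _, hk, Function.extend a x (fun _ => x ⟨0, hr⟩), ?_, ?_, ?_, ?_⟩
    · intro i; exact ha.extend_apply _ _ _
    · simp
    · simp
    · intro e he
      rw [Finset.mem_singleton] at he
      rw [he, Finset.image_image]
      have : Function.extend a x (fun _ => x ⟨0, hr⟩) ∘ a = x := by
        funext i; exact ha.extend_apply _ _ _
      rw [this]
      exact hx
  | graft T d B ih1 ih2 =>
    rintro a N Es x k R ⟨v, N₁, N₂, E₁, E₂, h1, h2, rfl, rfl, hva, hv1, hv2, hd, hd1, hd2⟩ ha hx hk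
    obtain ⟨R₁, hR₁, hk₁, f₁, hf₁a, hf₁N, hf₁i, hf₁E⟩ := ih1 a N₁ E₁ x _ R h1 ha hx hk
    obtain ⟨u, hu, R₂, hR₂, hLu, hk₂⟩ := rd_ne_zero R₁ hk₁
    obtain ⟨R', hR', hk', f₂, hf₂a, hf₂N, hf₂i, hf₂E⟩ := ih2 (Function.update a d v) N₂ E₂
      (Function.update x d u) k R₂ h2 (update_injective ha d hva) hLu hk₂
    have hR₂' : R₂ ⊆ R₁ := hR₂.trans (Finset.erase_subset _ _)
    have huR₂ : u ∉ R₂ := fun h => (Finset.mem_erase.mp (hR₂ h)).1 rfl
    have huR' : u ∉ R' := fun h => huR₂ (hR' h)
    have hav : ∀ i, a i ≠ v := fun i h => hva (Finset.mem_image.mpr ⟨i, Finset.mem_univ _, h⟩)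
    have haN₂ : ∀ i, a i ∉ N₂ := fun i h =>
      Finset.disjoint_left.mp hd2 h (Finset.mem_image_of_mem _ (Finset.mem_univ _))
    have hf₂v : f₂ v = u := by
      have := hf₂a d
      rwa [Function.update_self, Function.update_self] at this
    have hf₂a' : ∀ i, i ≠ d → f₂ (a i) = x i := by
      intro i hi
      have := hf₂a i
      rwa [Function.update_of_ne hi, Function.update_of_ne hi] at this
    set f : W → V := fun w => if w = v ∨ w ∈ N₂ then f₂ w else f₁ w with hf
    have fv : f v = u := by simp [hf, hf₂v]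
    have fN₂ : ∀ w ∈ N₂, f w = f₂ w := fun w hw => by simp [hf, hw]
    have fN₁ : ∀ w ∈ N₁, f w = f₁ w := by
      intro w hw
      have h3 : w ≠ v := fun h => hv1 (h ▸ hw)
      have h4 : w ∉ N₂ := Finset.disjoint_left.mp hd hw
      simp [hf, h3, h4]
    have fa : ∀ i, f (a i) = x i := by
      intro i
      simp [hf, hav i, haN₂ i, hf₁a i]
    refine ⟨R', (hR'.trans hR₂').trans hR₁, hk', f, fa, ?_, ?_, ?_⟩
    · intro w hw
      rw [Finset.mem_insert, Finset.mem_union] at hw
      rw [Finset.mem_sdiff]
      rcases hw with rfl | hw | hw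
      · rw [fv]; exact ⟨hR₁ hu, huR'⟩
      · rw [fN₁ w hw]
        have := Finset.mem_sdiff.mp (hf₁N w hw)
        exact ⟨this.1, fun h => this.2 (hR₂' (hR' h))⟩
      · rw [fN₂ w hw]
        have := Finset.mem_sdiff.mp (hf₂N w hw)
        exact ⟨hR₁ (hR₂' this.1), this.2⟩
    · intro w hw w' hw' hww'
      rw [Finset.mem_coe, Finset.mem_insert, Finset.mem_union] at hw hw'
      -- membership of the images
      have m1 : ∀ w ∈ N₁, f w ∉ R₁ := fun w hw => by
        rw [fN₁ w hw]; exact (Finset.mem_sdiff.mp (hf₁N w hw)).2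
      have m2 : ∀ w ∈ N₂, f w ∈ R₂ := fun w hw => by
        rw [fN₂ w hw]; exact (Finset.mem_sdiff.mp (hf₂N w hw)).1
      rcases hw with rfl | hw | hw <;> rcases hw' with rfl | hw' | hw'
      · rfl
      · exfalso; apply m1 w' hw'; rw [← hww', fv]; exact hu
      · exfalso; apply huR₂; have := m2 w' hw'; rwa [← hww', fv] at this
      · exfalso; apply m1 w hw; rw [hww', fv]; exact hu
      · rw [fN₁ w hw, fN₁ w' hw'] at hww'; exact hf₁i hw hw' hww'
      · exfalso; apply m1 w hw; rw [hww']; exact hR₂' (m2 w' hw')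
      · exfalso; apply huR₂; have := m2 w hw; rwa [hww', fv] at this
      · exfalso; apply m1 w' hw'; rw [← hww']; exact hR₂' (m2 w hw)
      · rw [fN₂ w hw, fN₂ w' hw'] at hww'; exact hf₂i hw hw' hww'
    · intro e he
      rw [Finset.mem_union] at he
      rcases he with he | he
      · have h3 : e.image f = e.image f₁ := by
          apply Finset.image_congr
          intro w hw
          have h4 := Rz_support _ _ _ _ h1 e he (Finset.mem_coe.mp hw)
          rw [Finset.mem_union] at h4
          rcases h4 with h4 | h4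
          · obtain ⟨i, -, rfl⟩ := Finset.mem_image.mp h4
            rw [fa, hf₁a]
          · exact fN₁ w h4
        rw [h3]
        exact hf₁E e he
      · have h3 : e.image f = e.image f₂ := by
          apply Finset.image_congr
          intro w hw
          have h4 := Rz_support _ _ _ _ h2 e he (Finset.mem_coe.mp hw)
          rw [Finset.mem_union] at h4
          rcases h4 with h4 | h4
          · obtain ⟨i, -, rfl⟩ := Finset.mem_image.mp h4
            by_cases hi : i = d
            · subst hi
              rw [Function.update_self, fv, hf₂v]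
            · rw [Function.update_of_ne hi, fa, hf₂a' i hi]
          · exact fN₂ w h4
        rw [h3]
        exact hf₂E e he

end Pool.Agent.Lib.MP_02973f_co
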