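import Pool.Agent.Lib.MP_02973f_co.Next

/-!
# Kalai's conjecture on tight trees: existence of the weight
-/

namespace Pool.Agent.MP02973f

open Finset
open scoped FinsetFamily

/-- `e 0, ..., e (c-1)` is a building sequence of a tight `r`-tree -/
def Build {α : Type*} [DecidableEq α] (r : ℕ) (e : ℕ → Finset α) (c : ℕ) : Prop :=
  (e 0).card = r ∧ ∀ i, 0 < i → i < c → ∃ j < i, ∃ S ⊆ e j, S.card + 1 = r ∧
    ∃ v, v ∉ (range i).biUnion e ∧ e i = insert v S

section

variable {α : Type*} [DecidableEq α] {r c : ℕ} {e : ℕ → Finset α}

theorem subset_union {i j : ℕ} (h : j < i) : e j ⊆ (range i).biUnion e :=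
  subset_biUnion_of_mem e (mem_range.2 h)

theorem Build.card (hb : Build r e c) {i : ℕ} (hi : i < c) : (e i).card = r := by
  rcases Nat.eq_zero_or_pos i with rfl | h0
  · exact hb.1
  · obtain ⟨j, hj, S, hS, hSr, v, hv, he⟩ := hb.2 i h0 hi
    have h1 : v ∉ S := fun h => hv (subset_union hj (hS h))
    rw [he, card_insert_of_notMem h1, hSr]

theorem union_succ {i j : ℕ} {S : Finset α} {v : α} (hj : j < i) (hS : S ⊆ e j)
    (he : e i = insert v S) : (range (i + 1)).biUnion e = insert v ((range i).biUnion e) := by
  rw [range_add_one, biUnion_insert, he, insert_union, union_eq_right.2]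
  exact hS.trans (subset_union hj)

theorem Build.card_union (hb : Build r e c) {i : ℕ} (h1 : 1 ≤ i) (hi : i ≤ c) :
    ((range i).biUnion e).card + 1 = r + i := by
  induction i, h1 using Nat.le_induction with
  | base =>
    rw [range_one, singleton_biUnion, hb.1]
  | succ i h1 ih =>
    obtain ⟨j, hj, S, hS, hSr, v, hv, he⟩ := hb.2 i (by omega) (by omega)
    rw [union_succ hj hS he, card_insert_of_notMem hv]
    have := ih (by omega)
    omega

theorem exists_insert {r : ℕ} {K S : Finset α} (hK : K.card = r) (hS : S ⊆ K)
    (hSr : S.card + 1 = r) : ∃ u, u ∉ S ∧ K = insert u S := by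
  have h3 : (K \ S).card = 1 := by
    rw [card_sdiff_of_subset hS]
    omega
  obtain ⟨u, hu⟩ := card_eq_one.1 h3
  refine ⟨u, ?_, ?_⟩
  · have : u ∈ K \ S := by
      rw [hu]
      exact mem_singleton_self u
    exact (mem_sdiff.1 this).2
  · rw [insert_eq, ← hu, sdiff_union_of_subset hS]

end

variable {α V : Type*} [DecidableEq α] [DecidableEq V] [Fintype α] [Fintype V]

theorem nextW_nonneg {H : Finset (Finset V)} {S : Finset α} {u v : α} {W : (α → V) → ℝ}
    (hW : ∀ φ, 0 ≤ W φ) (φ : α → V) : 0 ≤ nextW H S u v W φ := by
  unfold nextW
  refine mul_nonneg (Nat.cast_nonneg _) ?_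
  split_ifs with h
  · refine div_nonneg (hW φ) ?_
    have h1 := card_pos.2 ⟨_, mem_of_mem_erase h⟩
    have h2 : (1 : ℝ) ≤ (nb H (S.image φ)).card := by exact_mod_cast h1
    linarith
  · exact le_rfl

open Classical in
theorem exists_meas {H : Finset (Finset V)} {r c : ℕ} {e : ℕ → Finset α}
    (hH : ∀ E ∈ H, E.card = r) (hV : 0 < Fintype.card V) (hb : Build r e c)
    (hd : 1 < c → ∀ g ∈ ∂ H, 2 ≤ (nb H g).card) (B : ℝ)
    (hB : 1 < c → ∀ (S : Finset α) (u : α), u ∉ S → S.card + 1 = r → ∑ φ : α → V,
      (if (insert u S).image φ ∈ H then 1 / (((nb H (S.image φ)).card : ℝ) - 1) else 0) ≤ B)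
    {i : ℕ} (h1 : 1 ≤ i) (hi : i ≤ c) : ∃ W : (α → V) → ℝ, MeasAt H e i B W := by
  induction i, h1 using Nat.le_induction with
  | base =>
    have hU : (range 1).biUnion e = e 0 := by
      rw [range_one, singleton_biUnion]
    refine ⟨fun φ => if (e 0).image φ ∈ H then 1 else 0, ?_, ?_, ?_, ?_, ?_⟩
    · intro φ
      split_ifs <;> norm_num
    · intro φ v w hv
      rw [hU] at hv
      show (if (e 0).image (Function.update φ v w) ∈ H then (1 : ℝ) else 0) =
        if (e 0).image φ ∈ H then 1 else 0
      rw [image_update_of_notMem hv]
    · intro φ hφ j hj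
      have : j = 0 := by omega
      subst this
      by_contra hcon
      exact hφ (if_neg hcon)
    · intro j hj h _
      have : j = 0 := by omega
      subst this
      refine sum_congr rfl fun φ _ => ?_
      split_ifs <;> ring
    · have h2 : ∀ φ : α → V, (if Set.InjOn φ ((range 1).biUnion e : Finset α) then (0 : ℝ)
          else if (e 0).image φ ∈ H then 1 else 0) = 0 := by
        intro φ
        split_ifs with h2 h3
        · rfl
        · exfalso
          apply h2
          rw [hU]
          rw [← card_image_iff, hH _ h3, hb.1]
        · rfl
      rw [sum_congr rfl fun φ _ => h2 φ, sum_const_zero]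
      norm_num
  | succ i h1 ih =>
    obtain ⟨W, hWn, hWd, hWs, hWu, hWc⟩ := ih (by omega)
    obtain ⟨j, hj, S, hS, hSr, v, hv, he⟩ := hb.2 i (by omega) (by omega)
    have hc : 1 < c := by omega
    have hjr := hb.card (i := j) (by omega)
    obtain ⟨u, hu, hej⟩ := exists_insert hjr hS hSr
    have hjU : e j ⊆ (range i).biUnion e := subset_union hj
    have hSU := hS.trans hjU
    have hvS : v ∉ S := fun h => hv (hSU h)
    have huj : u ∈ e j := by
      rw [hej]
      exact mem_insert_self _ _
    have huv : u ≠ v := by
      rintro rfl
      exact hv (hjU huj)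
    have hU' := union_succ hj hS he
    have hWv : ∀ φ w, W (Function.update φ v w) = W φ := fun φ w => hWd φ v w hv
    have hnb : ∀ φ : α → V, (nb H (S.image φ)).Nonempty → 2 ≤ (nb H (S.image φ)).card := by
      intro φ h2
      have h3 : (S.image φ).card + 1 ≤ r := by
        have := card_image_le (s := S) (f := φ)
        omega
      exact hd hc _ ((nb_nonempty_iff hH h3).1 h2)
    have hs : ∀ φ, W φ ≠ 0 → φ u ∈ nb H (S.image φ) ∧ 2 ≤ (nb H (S.image φ)).card := by
      intro φ hφ
      have h2 := hWs φ hφ j hj
      rw [hej, image_insert] at h2
      have h3 := mem_nb.2 h2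
      exact ⟨h3, hnb φ ⟨_, h3⟩⟩
    refine ⟨nextW H S u v W, nextW_nonneg hWn, ?_, ?_, ?_, ?_⟩
    · intro φ x y hx
      rw [hU', mem_insert] at hx
      push Not at hx
      have hxS : x ∉ S := fun h => hx.2 (hSU h)
      have hxu : x ≠ u := by
        rintro rfl
        exact hx.2 (hjU huj)
      unfold nextW
      rw [image_update_of_notMem hxS, hWd φ x y hx.2, Function.update_of_ne hx.1.symm,
        Function.update_of_ne hxu.symm]
    · intro φ hφ j' hj'
      have h2 : φ v ∈ (nb H (S.image φ)).erase (φ u) ∧ W φ ≠ 0 := by
        by_contra hcon
        apply hφ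
        unfold nextW
        split_ifs with h3
        · have h4 : W φ = 0 := by
            by_contra h5
            exact hcon ⟨h3, h5⟩
          rw [h4]
          simp
        · simp
      rcases Nat.lt_or_ge j' i with h3 | h3
      · exact hWs φ h2.2 j' h3
      · have : j' = i := by omega
        subst this
        rw [he, image_insert]
        exact mem_nb.1 (mem_of_mem_erase h2.1)
    · intro j' hj' h hh
      rcases Nat.lt_or_ge j' i with h3 | h3
      · have hvj : v ∉ e j' := fun h4 => hv (subset_union h3 h4)
        rw [sum_next_old hV hvS huv hWv hs h fun φ w => hh φ v w hvj]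
        exact hWu j' h3 h hh
      · have : j' = i := by omega
        subst this
        rw [he] at hh ⊢
        refine unif_new hV hu hvS huv hWv hnb ?_ h hh
        intro k hk
        have := hWu j hj k (by rw [hej]; exact hk)
        rw [hej] at this
        exact this
    · have hV' : (0 : ℝ) ≤ Fintype.card V := Nat.cast_nonneg _
      have hk : ∀ φ : α → V, (if Set.InjOn φ ((range (i + 1)).biUnion e : Finset α) then (0 : ℝ)
          else nextW H S u v W φ) ≤
          nextW H S u v W φ * (if Set.InjOn φ ((range i).biUnion e : Finset α) then 0 else 1) +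
          ∑ x ∈ (range i).biUnion e \ e j,
            nextW H S u v W φ * (if φ v = φ x then 1 else 0) := by
        intro φ
        have hnn := nextW_nonneg (H := H) (S := S) (u := u) (v := v) hWn φ
        have hterm : ∀ x ∈ (range i).biUnion e \ e j,
            0 ≤ nextW H S u v W φ * (if φ v = φ x then (1 : ℝ) else 0) := by
          intro x _
          split_ifs
          · simpa using hnn
          · simp
        have hsum := sum_nonneg hterm
        split_ifs with h2 h3 h3
        · linarith
        · linarith
        · rw [mul_zero, zero_add]
          by_cases h0 : nextW H S u v W φ = 0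
          · rw [h0]
            simp
          have h4 : φ v ∈ (nb H (S.image φ)).erase (φ u) := by
            by_contra hcon
            apply h0
            unfold nextW
            rw [if_neg hcon, mul_zero]
          have h5 : ∃ x ∈ (range i).biUnion e, φ v = φ x := by
            by_contra hcon
            push Not at hcon
            apply h2
            rw [hU']
            intro x hx y hy hxy
            rw [mem_coe, mem_insert] at hx hy
            rcases hx with rfl | hx <;> rcases hy with rfl | hy
            · rfl
            · exact absurd hxy (hcon y hy)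
            · exact absurd hxy.symm (hcon x hx)
            · exact h3 hx hy hxy
          obtain ⟨x, hx, hxv⟩ := h5
          have h6 : x ∈ (range i).biUnion e \ e j := by
            rw [mem_sdiff]
            refine ⟨hx, fun hxj => ?_⟩
            rw [hej, mem_insert] at hxj
            rcases hxj with rfl | hxS
            · exact (mem_erase.1 h4).1 hxv
            · have h7 : (S.image φ).card + 1 ≤ r := by
                have := card_image_le (s := S) (f := φ)
                omega
              refine notMem_of_nb hH h7 (mem_of_mem_erase h4) ?_
              rw [hxv]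
              exact mem_image_of_mem φ hxS
          have h7 := single_le_sum hterm h6
          rw [if_pos hxv, mul_one] at h7
          exact h7
        · rw [mul_one]
          linarith
      refine (sum_le_sum fun φ _ => hk φ).trans ?_
      rw [sum_add_distrib, sum_comm]
      have hfirst : ∑ φ : α → V, nextW H S u v W φ *
          (if Set.InjOn φ ((range i).biUnion e : Finset α) then (0 : ℝ) else 1) ≤
          ((i : ℝ) - 1) * ((i : ℝ) - 2) / 2 * B := by
        rw [sum_next_old hV hvS huv hWv hs]
        · refine le_trans (le_of_eq ?_) hWc
          refine sum_congr rfl fun φ _ => ?_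
          split_ifs <;> ring
        · intro φ w
          have h2 : Set.InjOn (Function.update φ v w) ((range i).biUnion e : Finset α) ↔
              Set.InjOn φ ((range i).biUnion e : Finset α) := by
            refine Set.EqOn.injOn_iff ?_
            intro x hx
            have : x ≠ v := by
              rintro rfl
              exact hv (by simpa using hx)
            exact Function.update_of_ne this _ _
          simp only [h2]
      have hsecond : ∀ x ∈ (range i).biUnion e \ e j, ∑ φ : α → V, nextW H S u v W φ *
          (if φ v = φ x then (1 : ℝ) else 0) ≤ B := by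
        intro x hx
        have hxv : x ≠ v := by
          rintro rfl
          exact hv (mem_sdiff.1 hx).1
        rw [sum_next hV hvS huv hWv]
        have h2 : ∀ φ : α → V, ∑ w ∈ (nb H (S.image φ)).erase (φ u),
            W φ / ((nb H (S.image φ)).card - 1) * (if Function.update φ v w v =
              Function.update φ v w x then (1 : ℝ) else 0) ≤
            W φ * (1 / (((nb H (S.image φ)).card : ℝ) - 1)) := by
          intro φ
          by_cases h0 : W φ = 0
          · rw [h0]
            simp
          have h3 := (hs φ h0).2
          have h4 : (2 : ℝ) ≤ (nb H (S.image φ)).card := by exact_mod_cast h3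
          have h5 : 0 ≤ W φ / (((nb H (S.image φ)).card : ℝ) - 1) :=
            div_nonneg (hWn φ) (by linarith)
          simp only [Function.update_self, Function.update_of_ne hxv]
          rw [← mul_sum]
          have h6 : ∑ w ∈ (nb H (S.image φ)).erase (φ u), (if w = φ x then (1 : ℝ) else 0) ≤ 1 := by
            rw [sum_ite_eq']
            split_ifs <;> norm_num
          calc W φ / (((nb H (S.image φ)).card : ℝ) - 1) *
              ∑ w ∈ (nb H (S.image φ)).erase (φ u), (if w = φ x then (1 : ℝ) else 0)
              ≤ W φ / (((nb H (S.image φ)).card : ℝ) - 1) * 1 :=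
                mul_le_mul_of_nonneg_left h6 h5
            _ = _ := by ring
        refine (sum_le_sum fun φ _ => h2 φ).trans ?_
        rw [hWu j hj (fun φ => 1 / (((nb H (S.image φ)).card : ℝ) - 1))]
        · rw [hej]
          exact hB hc S u hu hSr
        · intro φ x y hx
          have : x ∉ S := fun h => hx (hS h)
          dsimp only
          rw [image_update_of_notMem this]
      have hcard : (((range i).biUnion e \ e j).card : ℝ) = (i : ℝ) - 1 := by
        rw [card_sdiff_of_subset hjU, hjr]
        have h2 := hb.card_union h1 (by omega)
        have h3 : ((range i).biUnion e).card - r = i - 1 := by omega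
        rw [h3, Nat.cast_sub h1]
        simp
      have h2 := sum_le_sum hsecond
      rw [sum_const, nsmul_eq_mul, hcard] at h2
      have h3 : ((i + 1 : ℕ) : ℝ) = (i : ℝ) + 1 := by push_cast; ring
      rw [h3]
      linarith

end Pool.Agent.MP02973f
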