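import Pool.Agent.Lib.MP_02973f_co.Exist

/-!
# Kalai's conjecture on tight trees: changing the root, removing leaf edges
-/

namespace Pool.Agent.MP02973f

open Finset
open scoped FinsetFamily

/-- `F` is the edge set of a tight `r`-tree which is built starting from the edge `E0` -/
inductive Grow {α : Type*} [DecidableEq α] (r : ℕ) (E0 : Finset α) : Finset (Finset α) → Prop
  | base : Grow r E0 {E0}
  | step {F : Finset (Finset α)} {e S : Finset α} {v : α} (h : Grow r E0 F) (he : e ∈ F)
      (hS : S ⊆ e) (hSr : S.card + 1 = r) (hv : v ∉ F.biUnion id) :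
      Grow r E0 (insert (insert v S) F)

variable {α : Type*} [DecidableEq α] {r : ℕ} {E0 E : Finset α} {F : Finset (Finset α)}

theorem Grow.root_mem (h : Grow r E0 F) : E0 ∈ F := by
  induction h with
  | base => exact mem_singleton_self _
  | step h he hS hSr hv ih => exact mem_insert_of_mem ih

theorem mem_union_of {e : Finset α} (he : e ∈ F) {x : α} (hx : x ∈ e) : x ∈ F.biUnion id :=
  mem_biUnion.2 ⟨e, he, hx⟩

theorem Grow.card_edge (h : Grow r E0 F) (h0 : E0.card = r) : ∀ e ∈ F, e.card = r := by
  induction h with
  | base =>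
    intro e he
    rw [mem_singleton.1 he, h0]
  | step h he hS hSr hv ih =>
    intro e' he'
    rw [mem_insert] at he'
    rcases he' with rfl | he'
    · rw [card_insert_of_notMem fun h1 => hv (mem_union_of he (hS h1)), hSr]
    · exact ih e' he'

theorem union_insert_edge {e S : Finset α} {v : α} (he : e ∈ F) (hS : S ⊆ e) :
    (insert (insert v S) F).biUnion id = insert v (F.biUnion id) := by
  rw [biUnion_insert, id, insert_union, union_eq_right.2]
  exact fun x hx => mem_union_of he (hS hx)

theorem Grow.card_union (h : Grow r E0 F) (h0 : E0.card = r) :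
    (F.biUnion id).card + 1 = r + F.card := by
  induction h with
  | base => simp [h0]
  | @step F e S v h he hS hSr hv ih =>
    rw [union_insert_edge he hS, card_insert_of_notMem hv, card_insert_of_notMem]
    · omega
    · intro h1
      exact hv (mem_union_of h1 (mem_insert_self v S))

theorem Grow.reroot_step (h : Grow r E F) (hE : E.card = r) {S : Finset α} (hS : S ⊆ E)
    (hSr : S.card + 1 = r) {v : α} (hv : v ∉ F.biUnion id) :
    Grow r (insert v S) (insert (insert v S) F) := by
  induction h with
  | base =>
    obtain ⟨u, hu, rfl⟩ := exists_insert hE hS hSr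
    have h1 : u ∉ ({insert v S} : Finset (Finset α)).biUnion id := by
      rw [singleton_biUnion, id, mem_insert]
      rintro (rfl | h1)
      · exact hv (mem_union_of (mem_singleton_self _) (mem_insert_self _ _))
      · exact hu h1
    have h2 := Grow.step (Grow.base (r := r) (E0 := insert v S)) (mem_singleton_self _)
      (subset_insert v S) hSr h1
    rw [pair_comm] at h2
    exact h2
  | @step F2 e2 S2 v2 h he hS2 hSr2 hv2 ih =>
    rw [union_insert_edge he hS2, mem_insert] at hv
    push Not at hv
    have h1 := ih hv.2
    have h2 : v2 ∉ (insert (insert v S) F2).biUnion id := by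
      rw [biUnion_insert, id, mem_union, mem_insert]
      rintro ((h3 | h3) | h3)
      · exact hv.1 h3.symm
      · exact hv2 (mem_union_of h.root_mem (hS h3))
      · exact hv2 h3
    have h3 := Grow.step h1 (mem_insert_of_mem he) hS2 hSr2 h2
    rw [insert_comm] at h3
    exact h3

theorem Grow.reroot (h : Grow r E0 F) (h0 : E0.card = r) {E1 : Finset α} (h1 : E1 ∈ F) :
    Grow r E1 F := by
  induction h generalizing E1 with
  | base =>
    rw [mem_singleton.1 h1]
    exact Grow.base
  | @step F e S v h he hS hSr hv ih =>
    rw [mem_insert] at h1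
    rcases h1 with rfl | h1
    · exact (ih he).reroot_step (h.card_edge h0 e he) hS hSr hv
    · exact Grow.step (ih h1) he hS hSr hv

/-- removing leaf edges which are attached to the root -/
theorem Grow.remove (h : Grow r E0 F) (L : Finset (Finset α)) (hLF : L ⊆ F)
    (hL : ∀ g ∈ L, ∃ y ∈ E0, ∃ v, v ∉ E0 ∧ g = insert v (E0.erase y) ∧
      ∀ g' ∈ F, v ∈ g' → g' = g) : Grow r E0 (F \ L) := by
  have hnot : ∀ g ∈ L, g ≠ E0 := by
    intro g hg
    obtain ⟨y, _, v, hv, rfl, _⟩ := hL g hg
    intro h1
    exact hv (h1 ▸ mem_insert_self _ _)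
  induction h generalizing L with
  | base =>
    have : L = ∅ := by
      rw [eq_empty_iff_forall_notMem]
      intro g hg
      exact hnot g hg (mem_singleton.1 (hLF hg))
    rw [this, sdiff_empty]
    exact Grow.base
  | @step F e S v h he hS hSr hv ih =>
    have he' : insert v S ∉ F := fun h1 => hv (mem_union_of h1 (mem_insert_self v S))
    have hsub : L.erase (insert v S) ⊆ F := by
      intro g hg
      rw [mem_erase] at hg
      have := hLF hg.2
      rw [mem_insert] at this
      exact this.resolve_left hg.1
    have h1 : Grow r E0 (F \ L.erase (insert v S)) := by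
      refine ih _ hsub ?_ fun g hg => hnot g (mem_of_mem_erase hg)
      intro g hg
      obtain ⟨y, hy, w, hw, hgw, hpr⟩ := hL g (mem_of_mem_erase hg)
      exact ⟨y, hy, w, hw, hgw, fun g' hg' => hpr g' (mem_insert_of_mem hg')⟩
    by_cases h2 : insert v S ∈ L
    · have h3 : insert (insert v S) F \ L = F \ L.erase (insert v S) := by
        ext g
        simp only [mem_sdiff, mem_insert, mem_erase]
        constructor
        · rintro ⟨rfl | h4, h5⟩
          · exact absurd h2 h5
          · exact ⟨h4, fun h6 => h5 h6.2⟩
        · rintro ⟨h4, h5⟩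
          refine ⟨Or.inr h4, fun h6 => h5 ⟨?_, h6⟩⟩
          rintro rfl
          exact he' h4
      rw [h3]
      exact h1
    · rw [erase_eq_of_notMem h2] at h1
      rw [insert_sdiff_of_notMem _ h2]
      have hv' : v ∉ (F \ L).biUnion id := by
        intro h3
        rw [mem_biUnion] at h3
        obtain ⟨g, hg, hvg⟩ := h3
        exact hv (mem_union_of (mem_sdiff.1 hg).1 hvg)
      by_cases h3 : e ∈ L
      · obtain ⟨y, hy, w, hw, hew, hpr⟩ := hL e h3
        have hwS : w ∉ S := by
          intro h4
          have h5 := hpr _ (mem_insert_self _ _) (mem_insert_of_mem h4)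
          rw [h5] at he'
          exact he' he
        have hSE : S ⊆ E0 := by
          intro x hx
          have h4 := hS hx
          rw [hew, mem_insert] at h4
          rcases h4 with rfl | h4
          · exact absurd hx hwS
          · exact mem_of_mem_erase h4
        exact Grow.step h1 (mem_sdiff.2 ⟨h.root_mem, fun h4 => hnot _ h4 rfl⟩) hSE hSr hv'
      · exact Grow.step h1 (mem_sdiff.2 ⟨he, h3⟩) hS hSr hv'

/-- a tight tree given by a building sequence -/
theorem Build.grow {c : ℕ} {e : ℕ → Finset α} (hb : Build r e c) {i : ℕ} (h1 : 1 ≤ i)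
    (hi : i ≤ c) : Grow r (e 0) ((range i).image e) := by
  induction i, h1 using Nat.le_induction with
  | base =>
    rw [range_one, image_singleton]
    exact Grow.base
  | succ i h1 ih =>
    obtain ⟨j, hj, S, hS, hSr, v, hv, he⟩ := hb.2 i (by omega) (by omega)
    rw [range_add_one, image_insert, he]
    refine Grow.step (ih (by omega)) (mem_image_of_mem e (mem_range.2 hj)) hS hSr ?_
    rw [image_biUnion]
    exact hv

variable {V : Type*} [DecidableEq V] [Fintype V]

/-- greedy embedding, the root edge is mapped as prescribed -/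
theorem Grow.embed {H : Finset (Finset V)} (hH : ∀ E ∈ H, E.card = r) (h : Grow r E0 F)
    (h0 : E0.card = r) {N : ℕ} (hN : F.card ≤ N) (hd : ∀ g ∈ ∂ H, N ≤ (nb H g).card)
    {φ0 : α → V} (hφ0 : E0.image φ0 ∈ H) :
    ∃ φ : α → V, Emb H (F.biUnion id) F φ ∧ ∀ x ∈ E0, φ x = φ0 x := by
  induction h with
  | base =>
    refine ⟨φ0, ⟨?_, ?_⟩, fun _ _ => rfl⟩
    · rw [singleton_biUnion, id, ← card_image_iff, hH _ hφ0, h0]
    · intro e he
      rw [mem_singleton] at he
      subst he
      rw [singleton_biUnion, id]
      exact ⟨Subset.rfl, hφ0⟩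
  | @step F e S v h he hS hSr hv ih =>
    have hnot : insert v S ∉ F := fun h1 => hv (mem_union_of h1 (mem_insert_self v S))
    rw [card_insert_of_notMem hnot] at hN
    obtain ⟨φ, h1, h2⟩ := ih (by omega)
    have hSU : S ⊆ F.biUnion id := fun x hx => mem_union_of he (hS hx)
    have hcard := h.card_union h0
    have hsh : N ≤ (nb H (S.image φ)).card := by
      apply hd
      obtain ⟨u, hu, hej⟩ := exists_insert (h.card_edge h0 e he) hS hSr
      have h4 := (h1.2 e he).2
      rw [hej, image_insert] at h4
      have h5 : (S.image φ).card + 1 ≤ r := by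
        have := card_image_le (s := S) (f := φ)
        omega
      exact (nb_nonempty_iff hH h5).1 ⟨_, mem_nb.2 h4⟩
    obtain ⟨φ', h3, h4⟩ := h1.step hH hSU hSr hv (by omega)
    refine ⟨φ', ?_, fun x hx => ?_⟩
    · rw [union_insert_edge he hS]
      exact h3
    · rw [h4 x (mem_union_of h.root_mem hx), h2 x hx]

end Pool.Agent.MP02973f
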