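import Pool.Agent.Lib.MP_02973f_co.Grow

/-!
# Kalai's conjecture on tight trees: sorted enumerations, an edge with large codegrees
-/

namespace Pool.Agent.MP02973f

open Finset
open scoped FinsetFamily

/-- an enumeration of a finite set along which a given function is non-increasing -/
theorem exists_enum {β : Type*} [DecidableEq β] {r : ℕ} (E : Finset β) (h : E.card = r)
    (f : β → ℕ) : ∃ y : Fin r → β, Function.Injective y ∧ univ.image y = E ∧
      ∀ i j : Fin r, i ≤ j → f (y j) ≤ f (y i) := by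
  let g : Fin r ≃ E := (E.equivFinOfCardEq h).symm
  let σ := Tuple.sort fun i : Fin r => OrderDual.toDual (f (g i))
  have hσ := Tuple.monotone_sort fun i : Fin r => OrderDual.toDual (f (g i))
  refine ⟨fun i => g (σ i), ?_, ?_, ?_⟩
  · intro i j hij
    exact σ.injective (g.injective (Subtype.ext hij))
  · ext b
    rw [mem_image]
    constructor
    · rintro ⟨i, _, rfl⟩
      exact (g (σ i)).2
    · intro hb
      refine ⟨σ.symm (g.symm ⟨b, hb⟩), mem_univ _, ?_⟩
      simp
  · intro i j hij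
    exact OrderDual.toDual_le_toDual.1 (hσ hij)

/-- the first `k` values of a non-increasing function have the largest sum -/
theorem sum_le_top {r k : ℕ} (f : Fin r → ℕ) (hf : ∀ i j : Fin r, i ≤ j → f j ≤ f i)
    (A : Finset (Fin r)) (hA : A.card = k) (hk : k < r) :
    ∑ i ∈ A, f i ≤ ∑ i ∈ univ.filter (fun i : Fin r => i.val < k), f i := by
  set B := univ.filter (fun i : Fin r => i.val < k) with hB
  have hBcard : B.card = k := by
    rw [hB, Fin.card_filter_val_lt]
    omega
  have h1 : (A \ B).card = (B \ A).card := by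
    have h2 := card_sdiff_add_card_inter A B
    have h3 := card_sdiff_add_card_inter B A
    rw [inter_comm] at h3
    omega
  have h2 : ∑ i ∈ A \ B, f i ≤ (A \ B).card * f ⟨k, hk⟩ := by
    rw [← smul_eq_mul]
    refine sum_le_card_nsmul _ _ _ fun i hi => hf _ _ ?_
    have h3 := (mem_sdiff.1 hi).2
    rw [hB, mem_filter] at h3
    push Not at h3
    have h4 := h3 (mem_univ i)
    exact Fin.mk_le_of_le_val h4
  have h3 : (B \ A).card * f ⟨k, hk⟩ ≤ ∑ i ∈ B \ A, f i := by
    rw [← smul_eq_mul]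
    refine card_nsmul_le_sum _ _ _ fun i hi => hf _ _ ?_
    have h3 := (mem_sdiff.1 hi).1
    rw [hB, mem_filter] at h3
    exact Fin.le_def.2 h3.2.le
  have h4 := sum_inter_add_sum_sdiff A B f
  have h5 := sum_inter_add_sum_sdiff B A f
  rw [inter_comm] at h5
  rw [h1] at h2
  omega

variable {V : Type*} [DecidableEq V] [Fintype V]

theorem sum_flags {H : Finset (Finset V)} {r : ℕ} (hH : ∀ E ∈ H, E.card = r) :
    ∑ E ∈ H, ∑ x ∈ E, 1 / ((nb H (E.erase x)).card : ℝ) = (∂ H).card := by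
  have h1 : ∑ g ∈ ∂ H, ∑ w ∈ nb H g, 1 / ((nb H g).card : ℝ) = (∂ H).card := by
    have h2 : ∀ g ∈ ∂ H, ∑ w ∈ nb H g, 1 / ((nb H g).card : ℝ) = 1 := by
      intro g hg
      have h3 := card_shadow_mem hH hg
      have h4 := card_pos.2 ((nb_nonempty_iff hH h3.le).2 hg)
      have h5 : ((nb H g).card : ℝ) ≠ 0 := by
        have : (nb H g).card ≠ 0 := by omega
        exact_mod_cast this
      rw [sum_const, nsmul_eq_mul]
      field_simp
    rw [sum_congr rfl h2, sum_const, nsmul_eq_mul, mul_one]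
  rw [← h1, sum_sigma', sum_sigma']
  refine sum_bij' (fun p _ => ⟨p.1.erase p.2, p.2⟩) (fun q _ => ⟨insert q.2 q.1, q.2⟩)
    ?_ ?_ ?_ ?_ ?_
  · rintro ⟨E, x⟩ hp
    rw [mem_sigma] at hp ⊢
    refine ⟨erase_mem_shadow hp.1 hp.2, mem_nb.2 ?_⟩
    dsimp only
    rw [insert_erase hp.2]
    exact hp.1
  · rintro ⟨g, w⟩ hq
    rw [mem_sigma] at hq ⊢
    exact ⟨mem_nb.1 hq.2, mem_insert_self _ _⟩
  · rintro ⟨E, x⟩ hp
    rw [mem_sigma] at hp
    dsimp only
    rw [insert_erase hp.2]
  · rintro ⟨g, w⟩ hq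
    rw [mem_sigma] at hq
    have h3 := card_shadow_mem hH hq.1
    dsimp only
    rw [erase_insert (notMem_of_nb hH h3.le hq.2)]
  · rintro ⟨E, x⟩ hp
    rfl

/-- an edge whose `i`-th largest codegree is larger than `(r - i) t / r` -/
theorem exists_light {H : Finset (Finset V)} {r t : ℕ} (hr : 1 ≤ r) (hH : ∀ E ∈ H, E.card = r)
    (hcard : (t : ℝ) / r * (∂ H).card < H.card) :
    ∃ (E : Finset V) (z : Fin r → V), E ∈ H ∧ Function.Injective z ∧ univ.image z = E ∧
      ∀ i : Fin r, (r - i.val) * t < r * (nb H (E.erase (z i))).card := by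
  have hr0 : (0 : ℝ) < r := by exact_mod_cast hr
  have hne : H.Nonempty := by
    rw [← card_pos]
    have h1 : (0 : ℝ) ≤ (t : ℝ) / r * (∂ H).card := by positivity
    have h2 : (0 : ℝ) < H.card := by linarith
    exact_mod_cast h2
  have hdpos : ∀ E ∈ H, ∀ x ∈ E, 0 < (nb H (E.erase x)).card := by
    intro E hE x hx
    refine card_pos.2 ⟨x, mem_nb.2 ?_⟩
    rw [insert_erase hx]
    exact hE
  have hex : ∃ E ∈ H, (t : ℝ) * ∑ x ∈ E, 1 / ((nb H (E.erase x)).card : ℝ) < r := by
    by_contra hcon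
    push Not at hcon
    have h1 := sum_le_sum hcon
    rw [sum_const, nsmul_eq_mul, ← mul_sum, sum_flags hH] at h1
    have h2 : (t : ℝ) * (∂ H).card < r * H.card := by
      have h3 := mul_lt_mul_of_pos_left hcard hr0
      have h4 : (r : ℝ) * ((t : ℝ) / r * (∂ H).card) = t * (∂ H).card := by
        field_simp
      linarith
    linarith
  obtain ⟨E, hE, hsum⟩ := hex
  obtain ⟨z, hz, hzE, hmono⟩ := exists_enum E (hH E hE) fun x => (nb H (E.erase x)).card
  refine ⟨E, z, hE, hz, hzE, fun i => ?_⟩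
  have hzm : ∀ j, z j ∈ E := by
    intro j
    rw [← hzE]
    exact mem_image_of_mem z (mem_univ j)
  have hd0 : (0 : ℝ) < (nb H (E.erase (z i))).card := by
    exact_mod_cast hdpos E hE _ (hzm i)
  have h1 : ∑ x ∈ E, 1 / ((nb H (E.erase x)).card : ℝ) =
      ∑ j : Fin r, 1 / ((nb H (E.erase (z j))).card : ℝ) := by
    have h0 : ∀ f : V → ℝ, ∑ x ∈ E, f x = ∑ j, f (z j) := by
      intro f
      rw [← hzE, sum_image fun a _ b _ hab => hz hab]
    exact h0 fun x => 1 / ((nb H (E.erase x)).card : ℝ)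
  have h2 : ((r - i.val : ℕ) : ℝ) * (1 / ((nb H (E.erase (z i))).card : ℝ)) ≤
      ∑ j : Fin r, 1 / ((nb H (E.erase (z j))).card : ℝ) := by
    have h3 : (univ.filter fun j : Fin r => i ≤ j).card = r - i.val := by
      have : (univ.filter fun j : Fin r => i ≤ j) = Ici i := by
        ext j
        simp
      rw [this, Fin.card_Ici]
    rw [← h3, ← nsmul_eq_mul, ← sum_const]
    refine le_trans (sum_le_sum fun j hj => ?_)
      (sum_le_sum_of_subset_of_nonneg (filter_subset _ _) fun j _ _ => by positivity)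
    have h4 := hmono i j (mem_filter.1 hj).2
    have h5 : (0 : ℝ) < (nb H (E.erase (z j))).card := by
      exact_mod_cast hdpos E hE _ (hzm j)
    exact one_div_le_one_div_of_le h5 (by exact_mod_cast h4)
  rw [h1] at hsum
  have h3 : (t : ℝ) * (((r - i.val : ℕ) : ℝ) * (1 / ((nb H (E.erase (z i))).card : ℝ))) < r :=
    lt_of_le_of_lt (mul_le_mul_of_nonneg_left h2 (Nat.cast_nonneg t)) hsum
  have h4 : (((r - i.val : ℕ) : ℝ) * t) < r * (nb H (E.erase (z i))).card := by
    have h5 : (t : ℝ) * (((r - i.val : ℕ) : ℝ) * (1 / ((nb H (E.erase (z i))).card : ℝ))) =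
        (((r - i.val : ℕ) : ℝ) * t) / (nb H (E.erase (z i))).card := by
      ring
    rw [h5, div_lt_iff₀ hd0] at h3
    exact h3
  exact_mod_cast h4

end Pool.Agent.MP02973f
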