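import Pool.Agent.Lib.MP_02973f_co.Tree

/-!
# The mass of the successful walkers
-/

set_option autoImplicit false
set_option linter.unusedSectionVars false

open Finset
open scoped Classical

namespace Pool.Agent.Lib.MP_02973f_co

variable {V : Type*} [DecidableEq V] [Fintype V] {r : ℕ}

/-- the ordered tuple with the entry `z` at `d` and the entries `y` elsewhere -/
def ins (d : Fin r) (z : V) (y : {j // j ≠ d} → V) : Fin r → V :=
  (Equiv.funSplitAt d V).symm (z, y)

theorem update_ins (d : Fin r) (z v : V) (y : {j // j ≠ d} → V) :
    Function.update (ins d z y) d v = ins d v y := by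
  funext j
  by_cases hj : j = d
  · subst hj
    simp [ins]
  · simp [ins, hj]

theorem image_ins (d : Fin r) (z : V) (y : {j // j ≠ d} → V) :
    Finset.univ.image (ins d z y) = insert z (Finset.univ.image y) := by
  ext w
  simp only [Finset.mem_image, Finset.mem_univ, true_and, Finset.mem_insert]
  constructor
  · rintro ⟨j, rfl⟩
    by_cases hj : j = d
    · left; subst hj; simp [ins]
    · right; exact ⟨⟨j, hj⟩, by simp [ins, hj]⟩
  · rintro (rfl | ⟨⟨j, hj⟩, rfl⟩)
    · exact ⟨d, by simp [ins]⟩
    · exact ⟨j, by simp [ins, hj]⟩

theorem sum_split (d : Fin r) (F : (Fin r → V) → ℝ) :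
    ∑ x, F x = ∑ y : {j // j ≠ d} → V, ∑ z : V, F (ins d z y) := by
  rw [← Equiv.sum_comp (Equiv.funSplitAt d V).symm F, Fintype.sum_prod_type, Finset.sum_comm]
  rfl

/-- the entries `z` completing `y` to an edge -/
def Ly (H : Finset (Finset V)) (d : Fin r) (y : {j // j ≠ d} → V) (z : V) : Prop :=
  Ed H (ins d z y)

theorem Lk_ins (H : Finset (Finset V)) (d : Fin r) (z : V) (y : {j // j ≠ d} → V) :
    Lk H (ins d z y) d = Ly H d y := by
  funext v
  unfold Lk Ly
  rw [update_ins]

theorem card_image_y (d : Fin r) (y : {j // j ≠ d} → V) :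
    (Finset.univ.image y).card ≤ r - 1 := by
  refine le_trans Finset.card_image_le ?_
  rw [Finset.card_univ, Fintype.card_subtype_compl]
  simp

theorem not_mem_of_Ly {H : Finset (Finset V)} (hr : 0 < r) (hH : ∀ E ∈ H, E.card = r) {d : Fin r}
    {y : {j // j ≠ d} → V} {z : V} (h : Ly H d y z) : z ∉ Finset.univ.image y := by
  intro hz
  have h1 := hH _ h
  unfold ins at h1
  have h1 : (Finset.univ.image (ins d z y)).card = r := h1
  rw [image_ins, Finset.insert_eq_of_mem hz] at h1
  have := card_image_y d y
  omega

theorem compl_ins {d : Fin r} {y : {j // j ≠ d} → V} {z : V} :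
    (Finset.univ.image (ins d z y))ᶜ = ((Finset.univ.image y)ᶜ).erase z := by
  rw [image_ins, Finset.compl_insert]

theorem sum_Ly {H : Finset (Finset V)} (hr : 0 < r) (hH : ∀ E ∈ H, E.card = r) (d : Fin r)
    (y : {j // j ≠ d} → V) (f : V → ℝ) :
    (∑ z : V, if Ly H d y z then f z else 0) =
      ∑ z ∈ (Finset.univ.image y)ᶜ, if Ly H d y z then f z else 0 := by
  symm
  apply Finset.sum_subset (Finset.subset_univ _)
  intro z _ hz
  rw [if_neg]
  intro h
  exact hz (Finset.mem_compl.mpr (not_mem_of_Ly hr hH h))

/-- **The step**, exactly. -/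
theorem step (H : Finset (Finset V)) (hr : 0 < r) (hH : ∀ E ∈ H, E.card = r) (d : Fin r)
    (g : (Fin r → V) → Finset V → ℝ) :
    (∑ x : Fin r → V, if Ed H x then
        US (rd (Lk H x d) (fun v => g (Function.update x d v))) (Finset.univ.image x)ᶜ else 0) =
      (∑ x : Fin r → V, if Ed H x then US (g x) (Finset.univ.image x)ᶜ else 0) -
        ∑ y : {j // j ≠ d} → V,
          rd (Ly H d y) (fun v => g (ins d v y)) (Finset.univ.image y)ᶜ := by
  rw [sum_split d, sum_split d (fun x => if Ed H x then
    US (g x) (Finset.univ.image x)ᶜ else 0), ← Finset.sum_sub_distrib]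
  apply Finset.sum_congr rfl
  intro y _
  have h1 : (∑ z : V, if Ed H (ins d z y) then
        US (rd (Lk H (ins d z y) d) (fun v => g (Function.update (ins d z y) d v)))
          (Finset.univ.image (ins d z y))ᶜ else 0) =
      ∑ z : V, if Ly H d y z then
        US (rd (Ly H d y) (fun v => g (ins d v y))) (((Finset.univ.image y)ᶜ).erase z) else 0 := by
    apply Finset.sum_congr rfl
    intro z _
    simp only [Lk_ins, update_ins, compl_ins]
    rfl
  have h2 : (∑ z : V, if Ed H (ins d z y) then
        US (g (ins d z y)) (Finset.univ.image (ins d z y))ᶜ else 0) =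
      ∑ z : V, if Ly H d y z then
        US (g (ins d z y)) (((Finset.univ.image y)ᶜ).erase z) else 0 := by
    apply Finset.sum_congr rfl
    intro z _
    simp only [compl_ins]
    rfl
  rw [h1, h2, sum_Ly hr hH, sum_Ly hr hH,
    balance_ite (Ly H d y) (fun v => g (ins d v y)) (Finset.univ.image y)ᶜ]
  ring

theorem rd_Ly_one_eq_zero (H : Finset (Finset V)) (d : Fin r)
    (y : {j // j ≠ d} → V) (h : ∀ z, ¬ Ly H d y z) (G : Finset V) :
    rd (Ly H d y) (fun _ => one) G = 0 := by
  have := balance_ite (Ly H d y) (fun _ => one) G
  simp only [h, if_false, Finset.sum_const_zero, zero_add] at this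
  exact this.symm

theorem injective_of_Ly {H : Finset (Finset V)} (hr : 0 < r) (hH : ∀ E ∈ H, E.card = r) {d : Fin r}
    {y : {j // j ≠ d} → V} {z : V} (h : Ly H d y z) : Function.Injective y := by
  have h1 : (Finset.univ.image (ins d z y)).card = r := hH _ h
  have h2 : Function.Injective (ins d z y) := by
    rw [← Set.injOn_univ, ← Finset.coe_univ, ← Finset.card_image_iff, h1]
    simp
  intro i j hij
  have h3 : ins d z y i.1 = ins d z y j.1 := by
    simpa [ins, i.2, j.2] using hij
  exact Subtype.ext (h2 h3)

theorem card_injective (d : Fin r) :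
    (Finset.univ.filter (fun y : {j // j ≠ d} → V => Function.Injective y)).card =
      (Fintype.card V).descFactorial (r - 1) := by
  rw [← Fintype.card_subtype,
    Fintype.card_congr (Equiv.subtypeInjectiveEquivEmbedding {j // j ≠ d} V),
    Fintype.card_embedding_eq, Fintype.card_subtype_compl]
  simp

/-- the total loss at one step -/
theorem loss_le (H : Finset (Finset V)) (hr : 0 < r) (hH : ∀ E ∈ H, E.card = r) (d : Fin r) :
    (∑ y : {j // j ≠ d} → V, rd (Ly H d y) (fun _ => one) (Finset.univ.image y)ᶜ) ≤
      ((Fintype.card V).factorial : ℝ) := by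
  have h1 : ∀ y : {j // j ≠ d} → V,
      rd (Ly H d y) (fun _ => one) (Finset.univ.image y)ᶜ ≤
        if Function.Injective y then ((Fintype.card V - (r - 1)).factorial : ℝ) else 0 := by
    intro y
    split_ifs with hy
    · refine le_trans (rd_one_le _ _) ?_
      unfold one
      rw [Finset.card_compl, Finset.card_image_of_injective _ hy, Finset.card_univ,
        Fintype.card_subtype_compl]
      simp
    · rw [rd_Ly_one_eq_zero]
      intro z hz
      exact hy (injective_of_Ly hr hH hz)
  refine le_trans (Finset.sum_le_sum (fun y _ => h1 y)) ?_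
  rw [← Finset.sum_filter, Finset.sum_const, card_injective, nsmul_eq_mul, ← Nat.cast_mul]
  norm_cast
  by_cases hn : r - 1 ≤ Fintype.card V
  · rw [mul_comm, Nat.factorial_mul_descFactorial hn]
  · rw [Nat.descFactorial_of_lt (not_le.mp hn)]
    simp

/-- the failing walkers -/
theorem fail_le (H : Finset (Finset V)) (hr : 0 < r) (hH : ∀ E ∈ H, E.card = r) (T : TT r) :
    (∑ x : Fin r → V, if Ed H x then
      US (fun R => one R - proc H T x one R) (Finset.univ.image x)ᶜ else 0) ≤
      ((T.size : ℝ) - 1) * ((Fintype.card V).factorial : ℝ) := by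
  induction T with
  | single =>
    simp only [proc, TT.size, sub_self, Nat.cast_one, zero_mul]
    apply Finset.sum_nonpos
    intro x _
    split_ifs
    · have : US (fun _ : Finset V => (0:ℝ)) (Finset.univ.image x)ᶜ ≤ 0 := by
        have h := US_sub (φ := fun _ : Finset V => (0:ℝ)) (ψ := fun _ => 0) (Finset.univ.image x)ᶜ
        simp only [sub_self] at h
        exact h.le
      exact this
    · exact le_rfl
  | graft T d B ih1 ih2 =>
    have hs : ((TT.graft T d B).size : ℝ) - 1 = ((T.size : ℝ) - 1) + 1 + ((B.size : ℝ) - 1) := by
      simp only [TT.size]; push_cast; ring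
    rw [hs, add_mul, add_mul, one_mul]
    -- the three losses
    have h1 := step H hr hH d (fun _ => one)
    have h2 := step H hr hH d (fun x R => one R - proc H B x one R)
    have h3 := loss_le H hr hH d
    have h4 : 0 ≤ ∑ y : {j // j ≠ d} → V,
          rd (Ly H d y) (fun v R => one R - proc H B (ins d v y) one R)
            (Finset.univ.image y)ᶜ :=
      Finset.sum_nonneg (fun y _ => rd_nonneg
        (fun v R => sub_nonneg.mpr (proc_one_le H B _ R)) _)
    have h5 : ∀ x : Fin r → V, (if Ed H x then
        US (fun R => one R - proc H (TT.graft T d B) x one R) (Finset.univ.image x)ᶜ else 0) ≤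
        (if Ed H x then US (fun R => one R - proc H T x one R) (Finset.univ.image x)ᶜ else 0) +
        ((if Ed H x then US one (Finset.univ.image x)ᶜ else 0) -
          (if Ed H x then US (rd (Lk H x d) (fun _ => one)) (Finset.univ.image x)ᶜ else 0)) +
        (if Ed H x then US (rd (Lk H x d)
          (fun v R => one R - proc H B (Function.update x d v) one R))
            (Finset.univ.image x)ᶜ else 0) := by
      intro x
      by_cases hx : Ed H x
      · simp only [hx, if_true]
        set G := (Finset.univ.image x)ᶜ with hG
        -- the unread reward after the first part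
        set h : Finset V → ℝ :=
          rd (Lk H x d) (fun v R₂ => proc H B (Function.update x d v) one R₂) with hh
        have e1 : (fun R => one R - proc H (TT.graft T d B) x one R) =
            (fun R => (one R - proc H T x one R) + proc H T x (fun R₁ => one R₁ - h R₁) R) := by
          funext R
          rw [proc_sub]
          simp only [proc, hh]
          ring
        rw [e1, US_add]
        have e2 : US (proc H T x (fun R₁ => one R₁ - h R₁)) G ≤ US (fun R₁ => one R₁ - h R₁) G := by
          apply US_proc_le
          intro R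
          rw [sub_nonneg, hh]
          exact le_trans (rd_mono (fun v R₂ => proc_one_le H B _ R₂) R) (rd_one_le _ _)
        have e3 : (fun R₁ => one R₁ - h R₁) = (fun R₁ =>
            (one R₁ - rd (Lk H x d) (fun _ => one) R₁) +
            rd (Lk H x d) (fun v R => one R - proc H B (Function.update x d v) one R) R₁) := by
          funext R
          have := rd_sub (L := Lk H x d) (k := fun _ => one)
            (k' := fun v R₂ => proc H B (Function.update x d v) one R₂) R
          rw [this, hh]
          ring
        have e4 : US (fun R₁ => one R₁ - h R₁) G =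
            (US one G - US (rd (Lk H x d) (fun _ => one)) G) +
            US (rd (Lk H x d) (fun v R => one R - proc H B (Function.update x d v) one R)) G := by
          rw [e3, US_add, US_sub]
        have e5 : US (fun R => proc H T x (fun R₁ => one R₁ - h R₁) R) G =
          US (proc H T x (fun R₁ => one R₁ - h R₁)) G := rfl
        linarith
      · simp [hx]
    refine le_trans (Finset.sum_le_sum (fun x _ => h5 x)) ?_
    rw [Finset.sum_add_distrib, Finset.sum_add_distrib, Finset.sum_sub_distrib]
    linarith

end Pool.Agent.Lib.MP_02973f_co
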