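import Pool.Agent.Lib.MP_02973f_co.Basic

/-!
# Kalai's conjecture on tight trees: a measure on the homomorphisms of a tight tree

For a tight tree with edges `e 0, ..., e (i-1)` we construct a weight `W` on the maps `φ : α → V`,
supported on the homomorphisms into `H`, such that the image of each edge is uniformly distributed
(`MeasAt`). A new vertex `v`, attached to the facet `S = e j \ {u}`, is uniformly distributed on the
vertices which extend `φ S`, the vertex `φ u` excepted.
-/

namespace Pool.Agent.MP02973f

open Finset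
open scoped FinsetFamily

variable {α V : Type*} [DecidableEq α] [DecidableEq V] [Fintype α] [Fintype V]

theorem sum_update (f : (α → V) → ℝ) (v : α) :
    ∑ φ : α → V, ∑ w : V, f (Function.update φ v w) =
      (Fintype.card V : ℝ) * ∑ φ : α → V, f φ := by
  let e : (α → V) × V ≃ (α → V) × V :=
    { toFun := fun p => (Function.update p.1 v p.2, p.1 v)
      invFun := fun p => (Function.update p.1 v p.2, p.1 v)
      left_inv := by rintro ⟨φ, w⟩; simp
      right_inv := by rintro ⟨φ, w⟩; simp }
  have h1 : ∑ p : (α → V) × V, f (Function.update p.1 v p.2) = ∑ p : (α → V) × V, f p.1 :=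
    Equiv.sum_comp e (fun p => f p.1)
  rw [Fintype.sum_prod_type, Fintype.sum_prod_type] at h1
  simp only at h1
  rw [h1, mul_sum]
  refine sum_congr rfl fun φ _ => ?_
  rw [sum_const, card_univ, nsmul_eq_mul]

variable (α V) in
/-- the number of the maps which map a given `k`-set onto a given `k`-set -/
noncomputable def cst (k : ℕ) : ℝ :=
  (Fintype.card V : ℝ) ^ Fintype.card α * k.factorial / (Fintype.card V : ℝ) ^ k

variable (α V) in
theorem cst_succ (hV : 0 < Fintype.card V) (k : ℕ) :
    (Fintype.card V : ℝ) * cst α V (k + 1) = (k + 1) * cst α V k := by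
  have h : (Fintype.card V : ℝ) ≠ 0 := by
    have : Fintype.card V ≠ 0 := by omega
    exact_mod_cast this
  unfold cst
  rw [Nat.factorial_succ, pow_succ]
  push_cast
  field_simp

variable (α V) in
theorem cst_pos (hV : 0 < Fintype.card V) (k : ℕ) : 0 < cst α V k := by
  have h : (0 : ℝ) < Fintype.card V := by exact_mod_cast hV
  unfold cst
  have := Nat.factorial_pos k
  positivity

theorem count_image (hV : 0 < Fintype.card V) (K : Finset α) (g : Finset V)
    (h : K.card = g.card) :
    ∑ φ : α → V, (if K.image φ = g then (1 : ℝ) else 0) = cst α V K.card := by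
  have hV' : (Fintype.card V : ℝ) ≠ 0 := by
    have : Fintype.card V ≠ 0 := by omega
    exact_mod_cast this
  induction K using Finset.induction_on generalizing g with
  | empty =>
    rw [card_empty] at h
    have hg : g = ∅ := card_eq_zero.1 h.symm
    subst hg
    simp [cst]
  | insert u K hu ih =>
    rw [card_insert_of_notMem hu] at h ⊢
    apply mul_left_cancel₀ hV'
    rw [cst_succ α V hV, ← sum_update _ u]
    have h1 : ∀ φ : α → V, ∑ w : V, (if (insert u K).image (Function.update φ u w) = g
        then (1 : ℝ) else 0) = ∑ w ∈ g, if K.image φ = g.erase w then (1 : ℝ) else 0 := by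
      intro φ
      rw [← sum_filter_add_sum_filter_not univ (fun w => w ∈ g)]
      have h2 : ∑ w ∈ univ.filter (fun w => ¬ w ∈ g),
          (if (insert u K).image (Function.update φ u w) = g then (1 : ℝ) else 0) = 0 := by
        refine sum_eq_zero fun w hw => ?_
        rw [if_neg]
        rw [image_update_insert hu]
        intro h3
        exact (mem_filter.1 hw).2 (h3 ▸ mem_insert_self _ _)
      rw [h2, add_zero, filter_mem_eq_inter, univ_inter]
      refine sum_congr rfl fun w hw => ?_
      rw [image_update_insert hu]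
      have h3 : insert w (K.image φ) = g ↔ K.image φ = g.erase w := by
        constructor
        · intro h4
          have h5 : w ∉ K.image φ := by
            intro h6
            rw [insert_eq_self.2 h6] at h4
            have h7 := card_image_le (s := K) (f := φ)
            rw [h4] at h7
            omega
          rw [← h4, erase_insert h5]
        · intro h4
          rw [h4, insert_erase hw]
      simp only [h3]
    rw [sum_congr rfl fun φ _ => h1 φ, sum_comm]
    have h2 : ∀ w ∈ g, ∑ φ : α → V, (if K.image φ = g.erase w then (1 : ℝ) else 0) =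
        cst α V K.card := by
      intro w hw
      refine ih (g.erase w) ?_
      rw [card_erase_of_mem hw]
      omega
    rw [sum_congr rfl h2, sum_const, nsmul_eq_mul, ← h]
    push_cast
    ring

theorem count_mem (hV : 0 < Fintype.card V) (K : Finset α) (H : Finset (Finset V))
    (h : ∀ E ∈ H, K.card = E.card) :
    ∑ φ : α → V, (if K.image φ ∈ H then (1 : ℝ) else 0) = H.card * cst α V K.card := by
  have h1 : ∀ φ : α → V, (if K.image φ ∈ H then (1 : ℝ) else 0) =
      ∑ E ∈ H, if K.image φ = E then (1 : ℝ) else 0 := by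
    intro φ
    rw [sum_ite_eq]
  rw [sum_congr rfl fun φ _ => h1 φ, sum_comm,
    sum_congr rfl fun E hE => count_image hV K E (h E hE), sum_const, nsmul_eq_mul]

/-- summing out the vertex `u` of the edge `S ∪ {u}` -/
theorem sum_edge (H : Finset (Finset V)) {S : Finset α} {u : α} (hu : u ∉ S)
    (k : (α → V) → ℝ) (hk : ∀ φ w, k (Function.update φ u w) = k φ) :
    (Fintype.card V : ℝ) * ∑ φ : α → V, (if (insert u S).image φ ∈ H then k φ else 0) =
      ∑ φ : α → V, ((nb H (S.image φ)).card : ℝ) * k φ := by
  rw [← sum_update _ u]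
  refine sum_congr rfl fun φ _ => ?_
  have h1 : ∀ w : V, (if (insert u S).image (Function.update φ u w) ∈ H
      then k (Function.update φ u w) else 0) = if insert w (S.image φ) ∈ H then k φ else 0 := by
    intro w
    rw [image_update_insert hu, hk]
  rw [sum_congr rfl fun w _ => h1 w, ← sum_filter, sum_const, nsmul_eq_mul]
  rfl

/-- the average of `1 / d` over the facets of a given type -/
theorem sum_inv {H : Finset (Finset V)} {r : ℕ} (hH : ∀ E ∈ H, E.card = r)
    (hV : 0 < Fintype.card V) {S : Finset α} {u : α} (hu : u ∉ S) (hS : S.card + 1 = r) :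
    ∑ φ : α → V, (if (insert u S).image φ ∈ H then 1 / ((nb H (S.image φ)).card : ℝ) else 0) =
      ((∂ H).card / r) * cst α V r := by
  have hV' : (Fintype.card V : ℝ) ≠ 0 := by
    have : Fintype.card V ≠ 0 := by omega
    exact_mod_cast this
  have hr : (r : ℝ) ≠ 0 := by
    have : r ≠ 0 := by omega
    exact_mod_cast this
  apply mul_left_cancel₀ hV'
  rw [sum_edge H hu (fun φ => 1 / ((nb H (S.image φ)).card : ℝ))
    (fun φ w => by rw [image_update_of_notMem hu])]
  have h1 : ∀ φ : α → V, ((nb H (S.image φ)).card : ℝ) * (1 / ((nb H (S.image φ)).card : ℝ)) =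
      if S.image φ ∈ ∂ H then 1 else 0 := by
    intro φ
    have h2 : (S.image φ).card + 1 ≤ r := by
      have := card_image_le (s := S) (f := φ)
      omega
    have h3 := nb_nonempty_iff hH h2
    by_cases h4 : S.image φ ∈ ∂ H
    · rw [if_pos h4]
      have h5 : ((nb H (S.image φ)).card : ℝ) ≠ 0 := by
        have := card_pos.2 (h3.2 h4)
        have h6 : (nb H (S.image φ)).card ≠ 0 := by omega
        exact_mod_cast h6
      field_simp
    · rw [if_neg h4]
      have h5 : nb H (S.image φ) = ∅ := by
        rw [← not_nonempty_iff_eq_empty]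
        exact fun h => h4 (h3.1 h)
      rw [h5]
      simp
  rw [sum_congr rfl fun φ _ => h1 φ, count_mem hV S (∂ H) (fun g hg => by
    have := card_shadow_mem hH hg
    omega)]
  obtain ⟨k, rfl⟩ : ∃ k, r = k + 1 := ⟨r - 1, by omega⟩
  have h2 : S.card = k := by omega
  have h3 := cst_succ α V hV k
  rw [h2]
  push_cast at hr ⊢
  field_simp
  linear_combination (-((∂ H).card : ℝ)) * h3

omit [Fintype α] [Fintype V] [DecidableEq α] in
theorem sum_erase (N : Finset V) (b : V → ℝ) :
    ∑ y ∈ N, ∑ w ∈ N.erase y, b w = (N.card - 1 : ℝ) * ∑ w ∈ N, b w := by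
  have h1 : ∀ y ∈ N, ∑ w ∈ N.erase y, b w = ∑ w ∈ N, b w - b y := by
    intro y hy
    rw [← add_sum_erase N b hy]
    ring
  rw [sum_congr rfl h1, sum_sub_distrib, sum_const, nsmul_eq_mul]
  ring

/-- `h` depends only on the values of `φ` on `K` -/
def DepOn (K : Finset α) (h : (α → V) → ℝ) : Prop :=
  ∀ (φ : α → V) (v : α) (w : V), v ∉ K → h (Function.update φ v w) = h φ

/-- the properties of the weight `W` on the homomorphisms of the tight tree `e 0, ..., e (i-1)` -/
structure MeasAt (H : Finset (Finset V)) (e : ℕ → Finset α) (i : ℕ) (B : ℝ)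
    (W : (α → V) → ℝ) : Prop where
  nonneg : ∀ φ, 0 ≤ W φ
  dep : DepOn ((range i).biUnion e) W
  supp : ∀ φ, W φ ≠ 0 → ∀ j < i, (e j).image φ ∈ H
  unif : ∀ j < i, ∀ h : (α → V) → ℝ, DepOn (e j) h →
    ∑ φ, W φ * h φ = ∑ φ : α → V, if (e j).image φ ∈ H then h φ else 0
  coll : ∑ φ : α → V, (open Classical in
    if Set.InjOn φ ((range i).biUnion e : Finset α) then 0 else W φ) ≤
      (((i : ℝ) - 1) * ((i : ℝ) - 2) / 2) * B

end Pool.Agent.MP02973f
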