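import Pool.Agent.Lib.MP_02973f_co.Meas

/-!
# Kalai's conjecture on tight trees: the weight of the homomorphisms, induction step
-/

namespace Pool.Agent.MP02973f

open Finset
open scoped FinsetFamily

variable {α V : Type*} [DecidableEq α] [DecidableEq V] [Fintype α] [Fintype V]

/-- the weight after the vertex `v` has been attached to the facet `S`, `S ∪ {u}` being an edge -/
noncomputable def nextW (H : Finset (Finset V)) (S : Finset α) (u v : α) (W : (α → V) → ℝ)
    (φ : α → V) : ℝ :=
  (Fintype.card V : ℝ) * (if φ v ∈ (nb H (S.image φ)).erase (φ u) then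
    W φ / ((nb H (S.image φ)).card - 1) else 0)

theorem sum_next (hV : 0 < Fintype.card V) {H : Finset (Finset V)} {S : Finset α} {u v : α}
    (hv : v ∉ S) (huv : u ≠ v) {W : (α → V) → ℝ} (hW : ∀ φ w, W (Function.update φ v w) = W φ)
    (k : (α → V) → ℝ) :
    ∑ φ, nextW H S u v W φ * k φ = ∑ φ : α → V, ∑ w ∈ (nb H (S.image φ)).erase (φ u),
      W φ / ((nb H (S.image φ)).card - 1) * k (Function.update φ v w) := by
  have hV' : (Fintype.card V : ℝ) ≠ 0 := by
    have : Fintype.card V ≠ 0 := by omega
    exact_mod_cast this
  apply mul_left_cancel₀ hV'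
  rw [← sum_update _ v, mul_sum]
  refine sum_congr rfl fun φ _ => ?_
  have h1 : ∀ w : V, nextW H S u v W (Function.update φ v w) * k (Function.update φ v w) =
      (Fintype.card V : ℝ) * (if w ∈ (nb H (S.image φ)).erase (φ u) then
        W φ / ((nb H (S.image φ)).card - 1) * k (Function.update φ v w) else 0) := by
    intro w
    unfold nextW
    rw [image_update_of_notMem hv, hW, Function.update_self, Function.update_of_ne huv]
    by_cases h : w ∈ (nb H (S.image φ)).erase (φ u)
    · rw [if_pos h, if_pos h]
      ring
    · rw [if_neg h, if_neg h]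
      ring
  rw [sum_congr rfl fun w _ => h1 w, ← mul_sum, ← sum_filter, filter_mem_eq_inter, univ_inter]

theorem sum_next_old (hV : 0 < Fintype.card V) {H : Finset (Finset V)} {S : Finset α} {u v : α}
    (hv : v ∉ S) (huv : u ≠ v) {W : (α → V) → ℝ} (hW : ∀ φ w, W (Function.update φ v w) = W φ)
    (hs : ∀ φ, W φ ≠ 0 → φ u ∈ nb H (S.image φ) ∧ 2 ≤ (nb H (S.image φ)).card)
    (k : (α → V) → ℝ) (hk : ∀ φ w, k (Function.update φ v w) = k φ) :
    ∑ φ, nextW H S u v W φ * k φ = ∑ φ, W φ * k φ := by
  rw [sum_next hV hv huv hW]
  refine sum_congr rfl fun φ _ => ?_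
  by_cases h : W φ = 0
  · rw [h]
    simp
  · obtain ⟨h1, h2⟩ := hs φ h
    rw [sum_congr rfl fun w _ => by rw [hk], sum_const, nsmul_eq_mul, card_erase_of_mem h1]
    have h3 : ((nb H (S.image φ)).card : ℝ) - 1 ≠ 0 := by
      have : (2 : ℝ) ≤ (nb H (S.image φ)).card := by exact_mod_cast h2
      intro h4
      linarith
    have h4 : (((nb H (S.image φ)).card - 1 : ℕ) : ℝ) = ((nb H (S.image φ)).card : ℝ) - 1 := by
      rw [Nat.cast_sub (by omega)]
      simp
    rw [h4]
    field_simp

theorem unif_new (hV : 0 < Fintype.card V) {H : Finset (Finset V)} {S : Finset α} {u v : α}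
    (hu : u ∉ S) (hv : v ∉ S) (huv : u ≠ v) {W : (α → V) → ℝ}
    (hW : ∀ φ w, W (Function.update φ v w) = W φ)
    (hd : ∀ φ : α → V, (nb H (S.image φ)).Nonempty → 2 ≤ (nb H (S.image φ)).card)
    (hun : ∀ h : (α → V) → ℝ, DepOn (insert u S) h →
      ∑ φ, W φ * h φ = ∑ φ : α → V, if (insert u S).image φ ∈ H then h φ else 0)
    (h : (α → V) → ℝ) (hh : DepOn (insert v S) h) :
    ∑ φ, nextW H S u v W φ * h φ =
      ∑ φ : α → V, if (insert v S).image φ ∈ H then h φ else 0 := by
  have hV' : (Fintype.card V : ℝ) ≠ 0 := by
    have : Fintype.card V ≠ 0 := by omega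
    exact_mod_cast this
  have hu' : u ∉ insert v S := by
    rw [mem_insert]
    push Not
    exact ⟨huv, hu⟩
  rw [sum_next hV hv huv hW]
  let k : (α → V) → ℝ := fun φ => ∑ w ∈ (nb H (S.image φ)).erase (φ u),
    h (Function.update φ v w) / ((nb H (S.image φ)).card - 1)
  have hk : DepOn (insert u S) k := by
    intro φ x y hx
    rw [mem_insert] at hx
    push Not at hx
    have e1 : S.image (Function.update φ x y) = S.image φ := image_update_of_notMem hx.2
    have e2 : Function.update φ x y u = φ u := Function.update_of_ne hx.1.symm _ _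
    show ∑ w ∈ (nb H (S.image (Function.update φ x y))).erase (Function.update φ x y u),
      h (Function.update (Function.update φ x y) v w) /
        ((nb H (S.image (Function.update φ x y))).card - 1) = _
    rw [e1, e2]
    refine sum_congr rfl fun w _ => ?_
    congr 1
    by_cases hxv : x = v
    · subst hxv
      rw [Function.update_idem]
    · rw [Function.update_comm hxv]
      refine hh _ x y ?_
      rw [mem_insert]
      push Not
      exact ⟨hxv, hx.2⟩
  have e1 : ∑ φ : α → V, ∑ w ∈ (nb H (S.image φ)).erase (φ u),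
      W φ / ((nb H (S.image φ)).card - 1) * h (Function.update φ v w) = ∑ φ, W φ * k φ := by
    refine sum_congr rfl fun φ _ => ?_
    rw [mul_sum]
    refine sum_congr rfl fun w _ => ?_
    ring
  rw [e1, hun k hk]
  apply mul_left_cancel₀ hV'
  rw [← sum_update _ u, ← sum_update (fun φ : α → V =>
    if (insert v S).image φ ∈ H then h φ else 0) v]
  refine sum_congr rfl fun φ _ => ?_
  have e2 : ∀ y : V, (if (insert u S).image (Function.update φ u y) ∈ H
      then k (Function.update φ u y) else 0) =
      if y ∈ nb H (S.image φ) then ∑ w ∈ (nb H (S.image φ)).erase y,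
        h (Function.update φ v w) / ((nb H (S.image φ)).card - 1) else 0 := by
    intro y
    rw [image_update_insert hu]
    have e3 : k (Function.update φ u y) = ∑ w ∈ (nb H (S.image φ)).erase y,
        h (Function.update φ v w) / ((nb H (S.image φ)).card - 1) := by
      show ∑ w ∈ (nb H (S.image (Function.update φ u y))).erase (Function.update φ u y u),
        h (Function.update (Function.update φ u y) v w) /
          ((nb H (S.image (Function.update φ u y))).card - 1) = _
      rw [image_update_of_notMem hu, Function.update_self]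
      refine sum_congr rfl fun w _ => ?_
      rw [Function.update_comm huv, hh _ u y hu']
    rw [e3]
    simp only [mem_nb]
  have e4 : ∀ w : V, (if (insert v S).image (Function.update φ v w) ∈ H
      then h (Function.update φ v w) else 0) =
      if w ∈ nb H (S.image φ) then h (Function.update φ v w) else 0 := by
    intro w
    rw [image_update_insert hv]
    simp only [mem_nb]
  simp only [e2, e4]
  rw [← sum_filter, filter_mem_eq_inter, univ_inter, ← sum_filter, filter_mem_eq_inter, univ_inter,
    sum_erase, ← sum_div]
  rcases (nb H (S.image φ)).eq_empty_or_nonempty with h0 | h0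
  · rw [h0]
    simp
  · have h2 : (2 : ℝ) ≤ (nb H (S.image φ)).card := by exact_mod_cast hd φ h0
    have h3 : ((nb H (S.image φ)).card : ℝ) - 1 ≠ 0 := by
      intro h4
      linarith
    field_simp

end Pool.Agent.MP02973f
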