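import Mathlib

/-!
# The reading process

For a finite set `R` of unread vertices and a predicate `L`, `rd L k R` is the sum over all
orders of `R` in which some element satisfies `L` of the reward `k v R'`, where `v` is the first
element satisfying `L` and `R'` is the set of the elements behind it (the reward is itself already
summed over the orders of `R'`). `US φ G` is `∑_{R ⊆ G} (|G| - |R|)! φ(R)`.
-/

set_option autoImplicit false
set_option linter.unusedSectionVars false

open Finset
open scoped Classical

namespace Pool.Agent.Lib.MP_02973f_co

variable {V : Type*} [DecidableEq V]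

/-- the reading process -/
noncomputable def rd (L : V → Prop) (k : V → Finset V → ℝ) (R : Finset V) : ℝ :=
  ∑ q : {x // x ∈ R}, if L q.1 then k q.1 (R.erase q.1) else rd L k (R.erase q.1)
termination_by R.card
decreasing_by exact Finset.card_erase_lt_of_mem q.2

/-- the sum over the starting times -/
noncomputable def US (φ : Finset V → ℝ) (G : Finset V) : ℝ :=
  φ G + ∑ q : {x // x ∈ G}, US φ (G.erase q.1)
termination_by G.card
decreasing_by exact Finset.card_erase_lt_of_mem q.2

theorem rd_eq (L : V → Prop) (k : V → Finset V → ℝ) (R : Finset V) :
    rd L k R = ∑ q ∈ R, if L q then k q (R.erase q) else rd L k (R.erase q) := by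
  rw [rd]
  exact Finset.sum_coe_sort R (fun q => if L q then k q (R.erase q) else rd L k (R.erase q))

theorem US_eq (φ : Finset V → ℝ) (G : Finset V) :
    US φ G = φ G + ∑ q ∈ G, US φ (G.erase q) := by
  rw [US]
  congr 1
  exact Finset.sum_coe_sort G (fun q => US φ (G.erase q))

/-- swapping the first two elements which are read -/
theorem sum_erase_comm (G : Finset V) (f : V → V → ℝ) :
    ∑ p ∈ G, ∑ q ∈ G.erase p, f p q = ∑ q ∈ G, ∑ p ∈ G.erase q, f p q := by
  apply Finset.sum_comm'
  intro p q
  simp only [Finset.mem_erase]
  constructor
  · rintro ⟨h1, h2, h3⟩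
    exact ⟨⟨fun h => h2 h.symm, h1⟩, h3⟩
  · rintro ⟨⟨h1, h2⟩, h3⟩
    exact ⟨h2, fun h => h1 h.symm, h3⟩

/-- induction principle: induction over the finite sets, removing one element -/
theorem erase_induction {P : Finset V → Prop}
    (h : ∀ G : Finset V, (∀ q ∈ G, P (G.erase q)) → P G) (G : Finset V) : P G := by
  induction' hn : G.card using Nat.strong_induction_on with n ih generalizing G
  subst hn
  exact h G (fun q hq => ih _ (Finset.card_erase_lt_of_mem hq) _ rfl)

theorem rd_mono {L : V → Prop} {k k' : V → Finset V → ℝ} (h : ∀ v R, k v R ≤ k' v R)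
    (R : Finset V) : rd L k R ≤ rd L k' R := by
  induction R using erase_induction with
  | h R ih =>
    rw [rd_eq, rd_eq]
    apply Finset.sum_le_sum
    intro q hq
    split_ifs
    · exact h _ _
    · exact ih q hq

theorem rd_sub {L : V → Prop} {k k' : V → Finset V → ℝ} (R : Finset V) :
    rd L (fun v R => k v R - k' v R) R = rd L k R - rd L k' R := by
  induction R using erase_induction with
  | h R ih =>
    rw [rd_eq, rd_eq, rd_eq, ← Finset.sum_sub_distrib]
    apply Finset.sum_congr rfl
    intro q hq
    split_ifs
    · rfl
    · exact ih q hq

theorem rd_zero {L : V → Prop} (R : Finset V) : rd L (fun _ _ => 0) R = 0 := by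
  induction R using erase_induction with
  | h R ih =>
    rw [rd_eq]
    apply Finset.sum_eq_zero
    intro q hq
    split_ifs
    · rfl
    · exact ih q hq

theorem rd_nonneg {L : V → Prop} {k : V → Finset V → ℝ} (h : ∀ v R, 0 ≤ k v R)
    (R : Finset V) : 0 ≤ rd L k R := by
  have := rd_mono (L := L) (k := fun _ _ => 0) (k' := k) h R
  rwa [rd_zero] at this

theorem US_mono {φ ψ : Finset V → ℝ} (h : ∀ R, φ R ≤ ψ R) (G : Finset V) : US φ G ≤ US ψ G := by
  induction G using erase_induction with
  | h G ih =>
    rw [US_eq, US_eq]
    exact add_le_add (h G) (Finset.sum_le_sum ih)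

theorem US_sub {φ ψ : Finset V → ℝ} (G : Finset V) :
    US (fun R => φ R - ψ R) G = US φ G - US ψ G := by
  induction G using erase_induction with
  | h G ih =>
    rw [US_eq, US_eq, US_eq, Finset.sum_congr rfl ih, Finset.sum_sub_distrib]
    ring

theorem US_add {φ ψ : Finset V → ℝ} (G : Finset V) :
    US (fun R => φ R + ψ R) G = US φ G + US ψ G := by
  induction G using erase_induction with
  | h G ih =>
    rw [US_eq, US_eq, US_eq, Finset.sum_congr rfl ih, Finset.sum_add_distrib]
    ring

/-- **Commutation.** -/
theorem US_rd (L : V → Prop) (k : V → Finset V → ℝ) (G : Finset V) :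
    US (rd L k) G = rd L (fun v => US (k v)) G := by
  induction G using Finset.strongInduction with
  | H G ih =>
    have ih1 : ∀ q ∈ G, US (rd L k) (G.erase q) = rd L (fun v => US (k v)) (G.erase q) :=
      fun q hq => ih _ (Finset.erase_ssubset hq)
    rw [US_eq, rd_eq L (fun v => US (k v)) G, Finset.sum_congr rfl ih1]
    have h1 : ∀ p ∈ G, rd L (fun v => US (k v)) (G.erase p) =
        ∑ q ∈ G.erase p, if L q then US (k q) ((G.erase p).erase q)
          else rd L (fun v => US (k v)) ((G.erase p).erase q) := fun p _ => rd_eq _ _ _
    rw [Finset.sum_congr rfl h1, sum_erase_comm G, rd_eq L k G, ← Finset.sum_add_distrib]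
    apply Finset.sum_congr rfl
    intro q hq
    split_ifs with hL
    · rw [US_eq (k q) (G.erase q)]
      congr 1
      apply Finset.sum_congr rfl
      intro p _
      rw [Finset.erase_right_comm]
    · rw [← ih1 q hq, US_eq (rd L k) (G.erase q)]
      congr 1
      apply Finset.sum_congr rfl
      intro p hp
      have hp' : p ∈ G := Finset.mem_of_mem_erase hp
      rw [Finset.erase_right_comm]
      exact (ih _ ((Finset.erase_subset p _).trans_ssubset (Finset.erase_ssubset hq))).symm

/-- leaving out the elements read before the first one in `L` -/
theorem rd_US_le (L : V → Prop) {g : Finset V → ℝ} (hg : ∀ R, 0 ≤ g R) (G : Finset V) :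
    rd L (fun _ => US g) G ≤ US g G := by
  induction G using erase_induction with
  | h G ih =>
    rw [rd_eq, US_eq]
    have h : (∑ q ∈ G, if L q then US g (G.erase q) else rd L (fun _ => US g) (G.erase q))
        ≤ ∑ q ∈ G, US g (G.erase q) := by
      apply Finset.sum_le_sum
      intro q hq
      split_ifs
      · exact le_rfl
      · exact ih q hq
    linarith [hg G]

/-- **Balance.** The exact loss when all the walkers at a window advance. -/
theorem balance_ite (L : V → Prop) (g : V → Finset V → ℝ) (G : Finset V) :
    (∑ v ∈ G, if L v then US (g v) (G.erase v) else 0) =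
      (∑ z ∈ G, if L z then US (rd L g) (G.erase z) else 0) + rd L g G := by
  induction G using erase_induction with
  | h G ih =>
    -- the left hand side
    have hA : (∑ v ∈ G, if L v then US (g v) (G.erase v) else 0) =
        (∑ v ∈ G, if L v then g v (G.erase v) else 0) +
          ∑ p ∈ G, ∑ v ∈ G.erase p, if L v then US (g v) ((G.erase p).erase v) else 0 := by
      rw [← sum_erase_comm G (fun v p => if L v then US (g v) ((G.erase p).erase v) else 0),
        ← Finset.sum_add_distrib]
      apply Finset.sum_congr rfl
      intro v _
      split_ifs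
      · rw [US_eq (g v) (G.erase v)]
        congr 1
        apply Finset.sum_congr rfl
        intro p _
        rw [Finset.erase_right_comm]
      · simp
    -- the walkers on the right hand side
    have hB : (∑ z ∈ G, if L z then US (rd L g) (G.erase z) else 0) =
        (∑ p ∈ G, if L p then
            (∑ v ∈ G.erase p, if L v then US (g v) ((G.erase p).erase v) else 0) else 0) +
          ∑ p ∈ G, if L p then 0 else
            (∑ z ∈ G.erase p, if L z then US (rd L g) ((G.erase p).erase z) else 0) := by
      have h2 : (∑ p ∈ G, if L p then 0 else
            (∑ z ∈ G.erase p, if L z then US (rd L g) ((G.erase p).erase z) else 0)) =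
          ∑ z ∈ G, ∑ p ∈ G.erase z, if L p then 0 else
            if L z then US (rd L g) ((G.erase p).erase z) else 0 := by
        rw [sum_erase_comm G (fun z p => if L p then 0 else
            if L z then US (rd L g) ((G.erase p).erase z) else 0)]
        apply Finset.sum_congr rfl
        intro p _
        split_ifs
        · simp
        · rfl
      rw [h2, ← Finset.sum_add_distrib]
      apply Finset.sum_congr rfl
      intro z _
      by_cases hz : L z
      · simp only [hz, if_true]
        rw [US_rd, rd_eq, ← Finset.sum_add_distrib]
        apply Finset.sum_congr rfl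
        intro q _
        by_cases hq : L q
        · simp [hq]
        · simp only [hq, if_false, zero_add]
          rw [Finset.erase_right_comm, US_rd]
      · simp [hz]
    rw [hA, hB, rd_eq L g G]
    have hC : (∑ p ∈ G, ∑ v ∈ G.erase p, if L v then US (g v) ((G.erase p).erase v) else 0) =
        (∑ p ∈ G, if L p then
            (∑ v ∈ G.erase p, if L v then US (g v) ((G.erase p).erase v) else 0) else 0) +
          ∑ p ∈ G, if L p then 0 else
            ((∑ z ∈ G.erase p, if L z then US (rd L g) ((G.erase p).erase z) else 0) +
              rd L g (G.erase p)) := by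
      rw [← Finset.sum_add_distrib]
      apply Finset.sum_congr rfl
      intro p hp
      split_ifs
      · simp
      · rw [ih p hp]; simp
    rw [hC]
    have hD : (∑ q ∈ G, if L q then g q (G.erase q) else rd L g (G.erase q)) =
        (∑ v ∈ G, if L v then g v (G.erase v) else 0) +
          ∑ p ∈ G, if L p then 0 else rd L g (G.erase p) := by
      rw [← Finset.sum_add_distrib]
      apply Finset.sum_congr rfl
      intro p _
      split_ifs <;> simp
    have hE : (∑ p ∈ G, if L p then 0 else
            ((∑ z ∈ G.erase p, if L z then US (rd L g) ((G.erase p).erase z) else 0) +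
              rd L g (G.erase p))) =
        (∑ p ∈ G, if L p then 0 else
            (∑ z ∈ G.erase p, if L z then US (rd L g) ((G.erase p).erase z) else 0)) +
          ∑ p ∈ G, if L p then 0 else rd L g (G.erase p) := by
      rw [← Finset.sum_add_distrib]
      apply Finset.sum_congr rfl
      intro p _
      split_ifs <;> simp
    rw [hD, hE]
    ring

/-- the number of orders of `R` -/
noncomputable def one (R : Finset V) : ℝ := (R.card.factorial : ℝ)

theorem one_nonneg (R : Finset V) : 0 ≤ one R := by unfold one; positivity

theorem sum_one_erase (R : Finset V) (hR : R.Nonempty) : ∑ q ∈ R, one (R.erase q) = one R := by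
  have h : ∀ q ∈ R, one (R.erase q) = ((R.card - 1).factorial : ℝ) := by
    intro q hq
    unfold one
    rw [Finset.card_erase_of_mem hq]
  rw [Finset.sum_congr rfl h, Finset.sum_const, nsmul_eq_mul, one]
  have h2 : R.card ≠ 0 := Finset.card_ne_zero.mpr hR
  rw [← Nat.cast_mul, Nat.mul_factorial_pred h2]

theorem rd_one_le (L : V → Prop) (R : Finset V) : rd L (fun _ => one) R ≤ one R := by
  induction R using erase_induction with
  | h R ih =>
    rw [rd_eq]
    rcases R.eq_empty_or_nonempty with rfl | hR
    · simp [one_nonneg]
    · rw [← sum_one_erase R hR]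
      apply Finset.sum_le_sum
      intro q hq
      split_ifs
      · exact le_rfl
      · exact ih q hq

theorem US_one (G : Finset V) : US one G = ((G.card + 1).factorial : ℝ) := by
  induction G using erase_induction with
  | h G ih =>
    rw [US_eq]
    rcases G.eq_empty_or_nonempty with rfl | hG
    · simp [one]
    · have h : ∀ q ∈ G, US one (G.erase q) = (G.card.factorial : ℝ) := by
        intro q hq
        rw [ih q hq, Finset.card_erase_of_mem hq, Nat.sub_add_cancel hG.card_pos]
      rw [Finset.sum_congr rfl h, Finset.sum_const, nsmul_eq_mul, one, Nat.factorial_succ]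
      push_cast
      ring

end Pool.Agent.Lib.MP_02973f_co
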