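import Pool.Agent.Lib.MP_02973f_co.Shape
import Mathlib.Combinatorics.SetFamily.Shadow

/-!
# The form with the shadow
-/

set_option autoImplicit false
set_option linter.unusedSectionVars false

open Finset
open scoped Classical

namespace Pool.Agent.Lib.MP_02973f_co

variable {V : Type*} [DecidableEq V] [Fintype V] {W : Type*} [DecidableEq W] {r : ℕ}

/-- the failing walkers, for any bound `D` of the loss at one step -/
theorem fail_le_gen (H : Finset (Finset V)) (hr : 0 < r) (hH : ∀ E ∈ H, E.card = r) (D : ℝ)
    (hD : ∀ d : Fin r, (∑ y : {j // j ≠ d} → V,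
      rd (Ly H d y) (fun _ => one) (Finset.univ.image y)ᶜ) ≤ D) (T : TT r) :
    (∑ x : Fin r → V, if Ed H x then
      US (fun R => one R - proc H T x one R) (Finset.univ.image x)ᶜ else 0) ≤
      ((T.size : ℝ) - 1) * D := by
  induction T with
  | single =>
    simp only [proc, TT.size, sub_self, Nat.cast_one, zero_mul]
    apply Finset.sum_nonpos
    intro x _
    split_ifs
    · have : US (fun _ : Finset V => (0:ℝ)) (Finset.univ.image x)ᶜ ≤ 0 := by
        have h := US_sub (φ := fun _ : Finset V => (0:ℝ)) (ψ := fun _ => 0) (Finset.univ.image x)ᶜ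
        simp only [sub_self] at h
        exact h.le
      exact this
    · exact le_rfl
  | graft T d B ih1 ih2 =>
    have hs : ((TT.graft T d B).size : ℝ) - 1 = ((T.size : ℝ) - 1) + 1 + ((B.size : ℝ) - 1) := by
      simp only [TT.size]; push_cast; ring
    rw [hs, add_mul, add_mul, one_mul]
    -- the three losses
    have h1 := step H hr hH d (fun _ => one)
    have h2 := step H hr hH d (fun x R => one R - proc H B x one R)
    have h3 := hD d
    have h4 : 0 ≤ ∑ y : {j // j ≠ d} → V,
          rd (Ly H d y) (fun v R => one R - proc H B (ins d v y) one R)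
            (Finset.univ.image y)ᶜ :=
      Finset.sum_nonneg (fun y _ => rd_nonneg
        (fun v R => sub_nonneg.mpr (proc_one_le H B _ R)) _)
    have h5 : ∀ x : Fin r → V, (if Ed H x then
        US (fun R => one R - proc H (TT.graft T d B) x one R) (Finset.univ.image x)ᶜ else 0) ≤
        (if Ed H x then US (fun R => one R - proc H T x one R) (Finset.univ.image x)ᶜ else 0) +
        ((if Ed H x then US one (Finset.univ.image x)ᶜ else 0) -
          (if Ed H x then US (rd (Lk H x d) (fun _ => one)) (Finset.univ.image x)ᶜ else 0)) +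
        (if Ed H x then US (rd (Lk H x d)
          (fun v R => one R - proc H B (Function.update x d v) one R))
            (Finset.univ.image x)ᶜ else 0) := by
      intro x
      by_cases hx : Ed H x
      · simp only [hx, if_true]
        set G := (Finset.univ.image x)ᶜ with hG
        -- the unread reward after the first part
        set h : Finset V → ℝ :=
          rd (Lk H x d) (fun v R₂ => proc H B (Function.update x d v) one R₂) with hh
        have e1 : (fun R => one R - proc H (TT.graft T d B) x one R) =
            (fun R => (one R - proc H T x one R) + proc H T x (fun R₁ => one R₁ - h R₁) R) := by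
          funext R
          rw [proc_sub]
          simp only [proc, hh]
          ring
        rw [e1, US_add]
        have e2 : US (proc H T x (fun R₁ => one R₁ - h R₁)) G ≤ US (fun R₁ => one R₁ - h R₁) G := by
          apply US_proc_le
          intro R
          rw [sub_nonneg, hh]
          exact le_trans (rd_mono (fun v R₂ => proc_one_le H B _ R₂) R) (rd_one_le _ _)
        have e3 : (fun R₁ => one R₁ - h R₁) = (fun R₁ =>
            (one R₁ - rd (Lk H x d) (fun _ => one) R₁) +
            rd (Lk H x d) (fun v R => one R - proc H B (Function.update x d v) one R) R₁) := by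
          funext R
          have := rd_sub (L := Lk H x d) (k := fun _ => one)
            (k' := fun v R₂ => proc H B (Function.update x d v) one R₂) R
          rw [this, hh]
          ring
        have e4 : US (fun R₁ => one R₁ - h R₁) G =
            (US one G - US (rd (Lk H x d) (fun _ => one)) G) +
            US (rd (Lk H x d) (fun v R => one R - proc H B (Function.update x d v) one R)) G := by
          rw [e3, US_add, US_sub]
        have e5 : US (fun R => proc H T x (fun R₁ => one R₁ - h R₁) R) G =
          US (proc H T x (fun R₁ => one R₁ - h R₁)) G := rfl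
        linarith
      · simp [hx]
    refine le_trans (Finset.sum_le_sum (fun x _ => h5 x)) ?_
    rw [Finset.sum_add_distrib, Finset.sum_add_distrib, Finset.sum_sub_distrib]
    linarith

theorem card_fiber_y (d : Fin r) (E : Finset V) (hE : E.card = r - 1) :
    (Finset.univ.filter (fun x : {j // j ≠ d} → V => Finset.univ.image x = E)).card =
      (r - 1).factorial := by
  have hci : Fintype.card {j // j ≠ d} = r - 1 := by
    rw [Fintype.card_subtype_compl]; simp
  have h : (r - 1).factorial = Fintype.card ({j // j ≠ d} ↪ E) := by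
    rw [Fintype.card_embedding_eq, hci]
    simp [hE, Nat.descFactorial_self]
  rw [h, ← Finset.card_univ]
  symm
  apply Finset.card_bij (fun (f : {j // j ≠ d} ↪ E) _ => fun j => ((f j : E) : V))
  · intro f _
    rw [Finset.mem_filter]
    refine ⟨Finset.mem_univ _, ?_⟩
    apply Finset.eq_of_subset_of_card_le
    · intro w hw
      obtain ⟨j, -, rfl⟩ := Finset.mem_image.mp hw
      exact (f j).2
    · rw [hE, Finset.card_image_of_injective, Finset.card_univ, hci]
      intro i j hij
      exact f.injective (Subtype.ext hij)
  · intro f _ g _ hfg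
    ext j
    exact congrFun hfg j
  · intro x hx
    rw [Finset.mem_filter] at hx
    have hx' := hx.2
    have hinj : Function.Injective x := by
      rw [← Set.injOn_univ, ← Finset.coe_univ, ← Finset.card_image_iff, hx', hE,
        Finset.card_univ, hci]
    refine ⟨⟨fun j => ⟨x j, by rw [← hx']; exact Finset.mem_image_of_mem _ (Finset.mem_univ _)⟩,
      ?_⟩, Finset.mem_univ _, rfl⟩
    intro i j hij
    exact hinj (by simpa using hij)

/-- the loss at one step is governed by the shadow -/
theorem loss_le_shadow (H : Finset (Finset V)) (hr : 0 < r) (hH : ∀ E ∈ H, E.card = r)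
    (d : Fin r) :
    (∑ y : {j // j ≠ d} → V, rd (Ly H d y) (fun _ => one) (Finset.univ.image y)ᶜ) ≤
      (H.shadow.card : ℝ) * ((r - 1).factorial : ℝ) *
        ((Fintype.card V - (r - 1)).factorial : ℝ) := by
  have hci : Fintype.card {j // j ≠ d} = r - 1 := by
    rw [Fintype.card_subtype_compl]; simp
  have h1 : ∀ y : {j // j ≠ d} → V,
      rd (Ly H d y) (fun _ => one) (Finset.univ.image y)ᶜ ≤
        if Finset.univ.image y ∈ H.shadow then
          ((Fintype.card V - (r - 1)).factorial : ℝ) else 0 := by
    intro y
    by_cases hy : ∃ z, Ly H d y z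
    · obtain ⟨z, hz⟩ := hy
      have hinj := injective_of_Ly hr hH hz
      have hzy := not_mem_of_Ly hr hH hz
      rw [if_pos]
      · refine le_trans (rd_one_le _ _) ?_
        unfold one
        rw [Finset.card_compl, Finset.card_image_of_injective _ hinj, Finset.card_univ, hci]
      · rw [Finset.mem_shadow_iff_insert_mem]
        refine ⟨z, hzy, ?_⟩
        rw [← image_ins d z y]
        exact hz
    · push Not at hy
      rw [rd_Ly_one_eq_zero H d y hy]
      split_ifs
      · positivity
      · exact le_rfl
  refine le_trans (Finset.sum_le_sum (fun y _ => h1 y)) ?_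
  rw [← Finset.sum_filter, Finset.sum_const, nsmul_eq_mul]
  have h2 : (Finset.univ.filter (fun y : {j // j ≠ d} → V =>
      Finset.univ.image y ∈ H.shadow)).card = H.shadow.card * (r - 1).factorial := by
    have h3 : (Finset.univ.filter (fun y : {j // j ≠ d} → V =>
        Finset.univ.image y ∈ H.shadow)) =
        H.shadow.biUnion (fun E => Finset.univ.filter
          (fun y : {j // j ≠ d} → V => Finset.univ.image y = E)) := by
      ext x
      rw [Finset.mem_filter, Finset.mem_biUnion]
      constructor
      · rintro ⟨-, hx⟩
        refine ⟨_, hx, ?_⟩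
        rw [Finset.mem_filter]
        exact ⟨Finset.mem_univ _, rfl⟩
      · rintro ⟨E, hE, hx⟩
        rw [Finset.mem_filter] at hx
        refine ⟨Finset.mem_univ _, ?_⟩
        rw [hx.2]
        exact hE
    rw [h3, Finset.card_biUnion]
    · have hsh : ∀ E ∈ H.shadow, E.card = r - 1 := by
        intro E hE
        obtain ⟨z, hz, hzE⟩ := Finset.mem_shadow_iff_insert_mem.mp hE
        have := hH _ hzE
        rw [Finset.card_insert_of_notMem hz] at this
        omega
      have h4 : ∀ E ∈ H.shadow, (Finset.univ.filter
          (fun y : {j // j ≠ d} → V => Finset.univ.image y = E)).card = (r - 1).factorial := by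
        intro E hE
        exact card_fiber_y d E (hsh E hE)
      rw [Finset.sum_congr rfl h4, Finset.sum_const, smul_eq_mul]
    · intro E _ E' _ hne
      rw [Function.onFun, Finset.disjoint_left]
      intro x hx hx'
      rw [Finset.mem_filter] at hx hx'
      exact hne (hx.2.symm.trans hx'.2)
  rw [h2]
  push_cast
  exact le_rfl

theorem main_count_shadow (H : Finset (Finset V)) (hr : 0 < r) (hH : ∀ E ∈ H, E.card = r)
    (T : TT r) (hT : ∀ x : Fin r → V, Ed H x → ∀ R ⊆ (Finset.univ.image x)ᶜ,
      proc H T x one R = 0) (hn : r ≤ Fintype.card V) :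
    (r : ℝ) * H.card ≤ ((T.size : ℝ) - 1) * (H.shadow.card : ℝ) := by
  have h1 := fail_le_gen H hr hH _ (fun d => loss_le_shadow H hr hH d) T
  have h2 : ∀ x : Fin r → V, (if Ed H x then
      US (fun R => one R - proc H T x one R) (Finset.univ.image x)ᶜ else 0) =
      if Ed H x then ((Fintype.card V - (r - 1)).factorial : ℝ) else 0 := by
    intro x
    split_ifs with hx
    · rw [US_congr (ψ := one) _ (fun R hR => by rw [hT x hx R hR, sub_zero]), US_one,
        Finset.card_compl]
      have h3 : (Finset.univ.image x).card = r := hH _ hx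
      rw [h3]
      congr 2
      omega
    · rfl
  rw [Finset.sum_congr rfl (fun x _ => h2 x), ← Finset.sum_filter, Finset.sum_const, card_Ed H hH,
    nsmul_eq_mul] at h1
  have h7 : ((r.factorial : ℕ) : ℝ) = r * ((r - 1).factorial : ℝ) := by
    rw [← Nat.mul_factorial_pred hr.ne']; push_cast; ring
  push_cast at h1
  rw [h7] at h1
  have hpos : (0 : ℝ) < ((r - 1).factorial : ℝ) * ((Fintype.card V - (r - 1)).factorial : ℝ) := by
    positivity
  by_contra hcon
  push Not at hcon
  have h8 := mul_lt_mul_of_pos_right hcon hpos
  nlinarith [h8, h1]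

theorem kalai_shape_shadow (H : Finset (Finset V)) (hr : 0 < r) (hH : ∀ E ∈ H, E.card = r)
    (T : TT r) (a : Fin r → W) (N : Finset W) (Es : Finset (Finset W)) (hR : Rz T a N Es)
    (ha : Function.Injective a) (hn : r ≤ Fintype.card V)
    (hfree : ¬ ∃ f : W → V, Set.InjOn f ((Finset.univ.image a ∪ N : Finset W) : Set W) ∧
      ∀ e ∈ Es, e.image f ∈ H) :
    (r : ℝ) * H.card ≤ ((T.size : ℝ) - 1) * (H.shadow.card : ℝ) := by
  apply main_count_shadow H hr hH T _ hn
  intro x hx R hRx
  by_contra hne
  obtain ⟨R', hR', -, f, hfa, hfN, hfi, hfE⟩ := exists_embed H hr T a N Es x one R hR ha hx hne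
  apply hfree
  refine ⟨f, ?_, hfE⟩
  have hxinj : Function.Injective x := by
    rw [← Set.injOn_univ, ← Finset.coe_univ, ← Finset.card_image_iff, hH _ hx]
    simp
  have m1 : ∀ i, f (a i) ∈ Finset.univ.image x := fun i => by
    rw [hfa]; exact Finset.mem_image_of_mem _ (Finset.mem_univ _)
  have m2 : ∀ w ∈ N, f w ∉ Finset.univ.image x := fun w hw =>
    Finset.mem_compl.mp (hRx (Finset.mem_sdiff.mp (hfN w hw)).1)
  intro w hw w' hw' hww'
  rw [Finset.mem_coe, Finset.mem_union] at hw hw'
  rcases hw with hw | hw <;> rcases hw' with hw' | hw'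
  · obtain ⟨i, -, rfl⟩ := Finset.mem_image.mp hw
    obtain ⟨j, -, rfl⟩ := Finset.mem_image.mp hw'
    rw [hfa, hfa] at hww'
    rw [hxinj hww']
  · obtain ⟨i, -, rfl⟩ := Finset.mem_image.mp hw
    exact absurd (hww' ▸ m1 i) (m2 w' hw')
  · obtain ⟨i, -, rfl⟩ := Finset.mem_image.mp hw'
    exact absurd (hww' ▸ m1 i) (m2 w hw)
  · exact hfi hw hw' hww'

end Pool.Agent.Lib.MP_02973f_co
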