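import Pool.Agent.Lib.MP_02973f_co.Embed

/-!
# Every tight tree has a shape, and the final count
-/

set_option autoImplicit false
set_option linter.unusedSectionVars false

open Finset
open scoped Classical

namespace Pool.Agent.Lib.MP_02973f_co

variable {V : Type*} [DecidableEq V] {W : Type*} [DecidableEq W] {r : ℕ}

/-- adding a leaf edge at any `(r-1)`-subset `S` of any edge `e` -/
theorem Rz_insert : ∀ (T : TT r) (a : Fin r → W) (N : Finset W) (Es : Finset (Finset W)),
    Rz T a N Es → Function.Injective a → ∀ e ∈ Es, ∀ S ⊆ e, S.card + 1 = r →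
    ∀ v, v ∉ Finset.univ.image a → v ∉ N →
    ∃ T' : TT r, T'.size = T.size + 1 ∧ Rz T' a (insert v N) (insert (insert v S) Es) := by
  intro T
  induction T with
  | single =>
    rintro a N Es ⟨rfl, rfl⟩ ha e he S hS hSr v hv -
    rw [Finset.mem_singleton] at he
    subst he
    have hc : (Finset.univ.image a).card = r := by
      rw [Finset.card_image_of_injective _ ha]; simp
    have h1 : (Finset.univ.image a \ S).card = 1 := by
      rw [Finset.card_sdiff_of_subset hS, hc]; omega
    obtain ⟨w, hw⟩ := Finset.card_eq_one.mp h1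
    have hw' : w ∈ Finset.univ.image a \ S := by rw [hw]; exact Finset.mem_singleton_self w
    obtain ⟨d, -, rfl⟩ := Finset.mem_image.mp (Finset.mem_sdiff.mp hw').1
    have hSe : S = (Finset.univ.image a).erase (a d) := by
      rw [Finset.erase_eq, ← hw, Finset.sdiff_sdiff_eq_self hS]
    refine ⟨.graft .single d .single, by simp [TT.size], v, ∅, ∅, {Finset.univ.image a},
      {Finset.univ.image (Function.update a d v)}, ⟨rfl, rfl⟩, ⟨rfl, rfl⟩, by simp, ?_, hv,
      by simp, by simp, by simp, by simp, by simp⟩
    rw [image_update ha, ← hSe, Finset.union_comm]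
    rfl
  | graft T d B ih1 ih2 =>
    rintro a N Es ⟨u, N₁, N₂, E₁, E₂, h1, h2, rfl, rfl, hua, hu1, hu2, hd, hd1, hd2⟩ ha e he S hS
      hSr v hv hvN
    simp only [Finset.mem_insert, Finset.mem_union, not_or] at hvN
    obtain ⟨hvu, hv1, hv2⟩ := hvN
    rw [Finset.mem_union] at he
    rcases he with he | he
    · obtain ⟨T', hT', hR'⟩ := ih1 a N₁ E₁ h1 ha e he S hS hSr v hv hv1
      refine ⟨.graft T' d B, by simp only [TT.size]; omega, u, insert v N₁, N₂,
        insert (insert v S) E₁, E₂, hR', h2, ?_, ?_, hua, ?_, hu2, ?_, ?_, hd2⟩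
      · rw [Finset.insert_union, Finset.insert_comm]
      · rw [Finset.insert_union]
      · simp only [Finset.mem_insert, not_or]; exact ⟨fun h => hvu h.symm, hu1⟩
      · rw [Finset.disjoint_insert_left]; exact ⟨hv2, hd⟩
      · rw [Finset.disjoint_insert_left]; exact ⟨hv, hd1⟩
    · have hv' : v ∉ Finset.univ.image (Function.update a d u) := by
        intro h
        have := image_update_subset a d u h
        rw [Finset.mem_insert] at this
        tauto
      obtain ⟨B', hB', hR'⟩ := ih2 (Function.update a d u) N₂ E₂ h2 (update_injective ha d hua)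
        e he S hS hSr v hv' hv2
      refine ⟨.graft T d B', by simp only [TT.size]; omega, u, N₁, insert v N₂,
        E₁, insert (insert v S) E₂, h1, hR', ?_, ?_, hua, hu1, ?_, ?_, hd1, ?_⟩
      · rw [Finset.union_insert, Finset.insert_comm]
      · rw [Finset.union_insert]
      · simp only [Finset.mem_insert, not_or]; exact ⟨fun h => hvu h.symm, hu2⟩
      · rw [Finset.disjoint_insert_right]; exact ⟨hv1, hd⟩
      · rw [Finset.disjoint_insert_left]; exact ⟨hv, hd2⟩

/-- every tight tree, given by its sequence of edges, has a shape -/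
theorem exists_shape (e : ℕ → Finset W) (a : Fin r → W) (ha : Function.Injective a)
    (ha0 : Finset.univ.image a = e 0) (m : ℕ)
    (he : ∀ i : ℕ, 0 < i → i < m + 1 →
        ∃ j : ℕ, j < i ∧ ∃ S : Finset W, S ⊆ e j ∧ S.card + 1 = r ∧
          ∃ v : W, v ∉ (Finset.range i).biUnion e ∧ e i = insert v S) :
    ∃ (T : TT r) (N : Finset W), T.size = m + 1 ∧ Rz T a N ((Finset.range (m + 1)).image e) ∧
      (Finset.range (m + 1)).biUnion e = Finset.univ.image a ∪ N := by
  induction m with
  | zero =>
    refine ⟨.single, ∅, rfl, ⟨rfl, by simp [ha0]⟩, by simp [ha0]⟩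
  | succ m ih =>
    obtain ⟨T, N, hT, hR, hN⟩ := ih (fun i hi hi' => he i hi (by omega))
    obtain ⟨j, hj, S, hS, hSr, v, hv, hev⟩ := he (m + 1) (by omega) (by omega)
    have hv' := hv
    rw [hN, Finset.mem_union, not_or] at hv'
    obtain ⟨T', hT', hR'⟩ := Rz_insert T a N _ hR ha (e j)
      (Finset.mem_image_of_mem _ (Finset.mem_range.mpr hj)) S hS hSr v hv'.1 hv'.2
    refine ⟨T', insert v N, by omega, ?_, ?_⟩
    · rw [Finset.range_add_one, Finset.image_insert, hev]
      exact hR'
    · rw [Finset.range_add_one, Finset.biUnion_insert, hev, hN]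
      have hS' : S ⊆ Finset.univ.image a ∪ N := by
        rw [← hN]
        exact hS.trans (Finset.subset_biUnion_of_mem e (Finset.mem_range.mpr hj))
      ext w
      simp only [Finset.mem_union, Finset.mem_insert]
      constructor
      · rintro ((h | h) | h)
        · tauto
        · have := hS' h; rw [Finset.mem_union] at this; tauto
        · tauto
      · tauto

theorem card_fiber (E : Finset V) (hE : E.card = r) [Fintype V] :
    (Finset.univ.filter (fun x : Fin r → V => Finset.univ.image x = E)).card = r.factorial := by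
  have h : r.factorial = Fintype.card (Fin r ↪ E) := by
    rw [Fintype.card_embedding_eq]
    simp [hE, Nat.descFactorial_self]
  rw [h, ← Finset.card_univ]
  symm
  apply Finset.card_bij (fun (f : Fin r ↪ E) _ => fun j => ((f j : E) : V))
  · intro f _
    rw [Finset.mem_filter]
    refine ⟨Finset.mem_univ _, ?_⟩
    apply Finset.eq_of_subset_of_card_le
    · intro w hw
      obtain ⟨j, -, rfl⟩ := Finset.mem_image.mp hw
      exact (f j).2
    · rw [hE, Finset.card_image_of_injective]
      · simp
      · intro i j hij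
        exact f.injective (Subtype.ext hij)
  · intro f _ g _ hfg
    ext j
    exact congrFun hfg j
  · intro x hx
    rw [Finset.mem_filter] at hx
    have hx' := hx.2
    have hinj : Function.Injective x := by
      rw [← Set.injOn_univ, ← Finset.coe_univ, ← Finset.card_image_iff, hx', hE]
      simp
    refine ⟨⟨fun j => ⟨x j, by rw [← hx']; exact Finset.mem_image_of_mem _ (Finset.mem_univ _)⟩,
      ?_⟩, Finset.mem_univ _, rfl⟩
    intro i j hij
    exact hinj (by simpa using hij)

theorem card_Ed [Fintype V] (H : Finset (Finset V)) (hH : ∀ E ∈ H, E.card = r) :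
    (Finset.univ.filter (fun x : Fin r → V => Ed H x)).card = H.card * r.factorial := by
  have h1 : (Finset.univ.filter (fun x : Fin r → V => Ed H x)) =
      H.biUnion (fun E => Finset.univ.filter (fun x : Fin r → V => Finset.univ.image x = E)) := by
    ext x
    rw [Finset.mem_filter, Finset.mem_biUnion]
    constructor
    · rintro ⟨-, hx⟩
      refine ⟨_, hx, ?_⟩
      rw [Finset.mem_filter]
      exact ⟨Finset.mem_univ _, rfl⟩
    · rintro ⟨E, hE, hx⟩
      rw [Finset.mem_filter] at hx
      refine ⟨Finset.mem_univ _, ?_⟩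
      unfold Ed
      rw [hx.2]
      exact hE
  rw [h1, Finset.card_biUnion]
  · rw [Finset.sum_congr rfl (fun E hE => card_fiber E (hH E hE)), Finset.sum_const, smul_eq_mul]
  · intro E _ E' _ hne
    rw [Function.onFun, Finset.disjoint_left]
    intro x hx hx'
    rw [Finset.mem_filter] at hx hx'
    exact hne (hx.2.symm.trans hx'.2)

theorem US_congr {φ ψ : Finset V → ℝ} (G : Finset V) (h : ∀ R ⊆ G, φ R = ψ R) :
    US φ G = US ψ G := by
  induction G using erase_induction with
  | h G ih =>
    rw [US_eq, US_eq, h G (Finset.Subset.refl _)]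
    congr 1
    apply Finset.sum_congr rfl
    intro q hq
    exact ih q hq (fun R hR => h R (hR.trans (Finset.erase_subset _ _)))

/-- **The count.** If the shape `T` cannot be embedded then `r |H| ≤ (t - 1) C(n, r-1)`. -/
theorem main_count [Fintype V] (H : Finset (Finset V)) (hr : 0 < r) (hH : ∀ E ∈ H, E.card = r)
    (T : TT r) (hT : ∀ x : Fin r → V, Ed H x → ∀ R ⊆ (Finset.univ.image x)ᶜ,
      proc H T x one R = 0) (hn : r ≤ Fintype.card V) :
    (r : ℝ) * H.card ≤ ((T.size : ℝ) - 1) * ((Fintype.card V).choose (r - 1) : ℝ) := by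
  have h1 := fail_le H hr hH T
  have h2 : ∀ x : Fin r → V, (if Ed H x then
      US (fun R => one R - proc H T x one R) (Finset.univ.image x)ᶜ else 0) =
      if Ed H x then ((Fintype.card V - (r - 1)).factorial : ℝ) else 0 := by
    intro x
    split_ifs with hx
    · rw [US_congr (ψ := one) _ (fun R hR => by rw [hT x hx R hR, sub_zero]), US_one,
        Finset.card_compl]
      have h3 : (Finset.univ.image x).card = r := hH _ hx
      rw [h3]
      congr 2
      omega
    · rfl
  rw [Finset.sum_congr rfl (fun x _ => h2 x), ← Finset.sum_filter, Finset.sum_const, card_Ed H hH,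
    nsmul_eq_mul] at h1
  have h4 : r - 1 ≤ Fintype.card V := by omega
  have h5 := Nat.choose_mul_factorial_mul_factorial h4
  have h6 : (((Fintype.card V).factorial : ℕ) : ℝ) =
      ((Fintype.card V).choose (r - 1) : ℝ) * ((r - 1).factorial : ℝ) *
        ((Fintype.card V - (r - 1)).factorial : ℝ) := by
    rw [← h5]; push_cast; ring
  have h7 : ((r.factorial : ℕ) : ℝ) = r * ((r - 1).factorial : ℝ) := by
    rw [← Nat.mul_factorial_pred hr.ne']; push_cast; ring
  rw [h6] at h1
  push_cast at h1
  rw [h7] at h1
  have hpos : (0 : ℝ) < ((r - 1).factorial : ℝ) * ((Fintype.card V - (r - 1)).factorial : ℝ) := by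
    positivity
  by_contra hcon
  push Not at hcon
  have h8 := mul_lt_mul_of_pos_right hcon hpos
  nlinarith [h8, h1]

/-- **Kalai's conjecture for all tight trees**, in the form for shapes: the copy is an injection
of the vertex set of the tree -/
theorem kalai_shape [Fintype V] (H : Finset (Finset V)) (hr : 0 < r) (hH : ∀ E ∈ H, E.card = r)
    (T : TT r) (a : Fin r → W) (N : Finset W) (Es : Finset (Finset W)) (hR : Rz T a N Es)
    (ha : Function.Injective a) (hn : r ≤ Fintype.card V)
    (hfree : ¬ ∃ f : W → V, Set.InjOn f ((Finset.univ.image a ∪ N : Finset W) : Set W) ∧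
      ∀ e ∈ Es, e.image f ∈ H) :
    (r : ℝ) * H.card ≤ ((T.size : ℝ) - 1) * ((Fintype.card V).choose (r - 1) : ℝ) := by
  apply main_count H hr hH T _ hn
  intro x hx R hRx
  by_contra hne
  obtain ⟨R', hR', -, f, hfa, hfN, hfi, hfE⟩ := exists_embed H hr T a N Es x one R hR ha hx hne
  apply hfree
  refine ⟨f, ?_, hfE⟩
  have hxinj : Function.Injective x := by
    rw [← Set.injOn_univ, ← Finset.coe_univ, ← Finset.card_image_iff, hH _ hx]
    simp
  have m1 : ∀ i, f (a i) ∈ Finset.univ.image x := fun i => by
    rw [hfa]; exact Finset.mem_image_of_mem _ (Finset.mem_univ _)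
  have m2 : ∀ w ∈ N, f w ∉ Finset.univ.image x := fun w hw =>
    Finset.mem_compl.mp (hRx (Finset.mem_sdiff.mp (hfN w hw)).1)
  intro w hw w' hw' hww'
  rw [Finset.mem_coe, Finset.mem_union] at hw hw'
  rcases hw with hw | hw <;> rcases hw' with hw' | hw'
  · obtain ⟨i, -, rfl⟩ := Finset.mem_image.mp hw
    obtain ⟨j, -, rfl⟩ := Finset.mem_image.mp hw'
    rw [hfa, hfa] at hww'
    rw [hxinj hww']
  · obtain ⟨i, -, rfl⟩ := Finset.mem_image.mp hw
    exact absurd (hww' ▸ m1 i) (m2 w' hw')
  · obtain ⟨i, -, rfl⟩ := Finset.mem_image.mp hw'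
    exact absurd (hww' ▸ m1 i) (m2 w hw)
  · exact hfi hw hw' hww'

end Pool.Agent.Lib.MP_02973f_co
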