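import Pool.Agent.Lib.MP_02973f_co.Light
import Pool.Agent.Lib.MP_02973f_co.Defs

/-!
# Kalai's conjecture on tight trees: trees with many leaf edges at one edge
-/

namespace Pool.Agent.MP02973f

open Finset
open scoped FinsetFamily

theorem sid_main {r ℓ m n : ℕ} (hr : 2 ≤ r) (e : ℕ → Finset (Fin ℓ)) (hm : 0 < m)
    (hb : Build r e m) (hcov : (range m).biUnion e = univ) (i0 : ℕ) (hi0 : i0 < m)
    (hleaf : ∀ k, 1 ≤ k → k < r → ∃ A ⊆ e i0, A.card = k ∧
      k * (m - 1) ≤ r * ∑ y ∈ A, (leaves e m (e i0) y).card)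
    (H : Finset (Finset (Fin n))) (hH : ∀ E ∈ H, E.card = r)
    (hfree : ¬ ∃ f : Fin ℓ ↪ Fin n, ∀ i : ℕ, i < m → (e i).map f ∈ H) :
    (H.card : ℝ) ≤ (((m - 1 : ℕ) : ℝ) / r) * (∂ H).card := by
  classical
  by_contra hcon
  push Not at hcon
  have hr0 : (0 : ℝ) < r := by
    have : 0 < r := by omega
    exact_mod_cast this
  obtain ⟨H', hsub, hcard, hcod⟩ := exists_pruned (by positivity) H hH hcon
  have hH' : ∀ E ∈ H', E.card = r := fun E hE => hH E (hsub hE)
  have hcod' : ∀ g ∈ ∂ H', m - 1 < r * (nb H' g).card := by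
    intro g hg
    have h1 := hcod g hg
    rw [div_lt_iff₀ hr0] at h1
    have h2 : (((m - 1 : ℕ) : ℝ)) < ((r * (nb H' g).card : ℕ) : ℝ) := by
      push_cast
      linarith
    exact_mod_cast h2
  obtain ⟨E, z, hE, hz, hzE, hzd⟩ := exists_light (by omega) hH' hcard
  set E0 := e i0 with hE0
  have hE0r : E0.card = r := hb.card hi0
  obtain ⟨y, hy, hyE, hmono⟩ := exists_enum E0 hE0r fun x => (leaves e m E0 x).card
  have hym : ∀ j, y j ∈ E0 := by
    intro j
    rw [← hyE]
    exact mem_image_of_mem y (mem_univ j)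
  have hyex : ∀ x ∈ E0, ∃ j, y j = x := by
    intro x hx
    rw [← hyE, mem_image] at hx
    obtain ⟨j, _, hj⟩ := hx
    exact ⟨j, hj⟩
  -- the tree
  set F := (range m).image e with hF
  have hgrow : Grow r (e 0) F := hb.grow (by omega) le_rfl
  have hE0F : E0 ∈ F := mem_image_of_mem e (mem_range.2 hi0)
  have hgrow0 : Grow r E0 F := hgrow.reroot hb.1 hE0F
  have hFU : F.biUnion id = univ := by
    rw [hF, image_biUnion]
    exact hcov
  have hFcard : F.card = m := by
    have h1 := hgrow0.card_union hE0r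
    have h2 := hb.card_union (i := m) (by omega) le_rfl
    rw [hcov] at h2
    rw [hFU] at h1
    omega
  -- the leaf edges
  set P : Finset (Fin ℓ × Fin ℓ) := (E0 ×ˢ univ).filter fun p => p.2 ∈ leaves e m E0 p.1 with hP
  have hPm : ∀ p, p ∈ P ↔ p.1 ∈ E0 ∧ p.2 ∈ leaves e m E0 p.1 := by
    intro p
    rw [hP, mem_filter, mem_product]
    simp
  have hlm : ∀ x v, v ∈ leaves e m E0 x ↔ v ∉ E0 ∧
      ∀ i < m, (v ∈ e i ↔ e i = insert v (E0.erase x)) := by
    intro x v
    unfold leaves
    rw [mem_filter]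
    simp
  have hledge : ∀ x v, v ∈ leaves e m E0 x → insert v (E0.erase x) ∈ F := by
    intro x v hv
    obtain ⟨h1, h2⟩ := (hlm x v).1 hv
    have h3 : v ∈ (range m).biUnion e := by
      rw [hcov]
      exact mem_univ v
    rw [mem_biUnion] at h3
    obtain ⟨i, hi, hvi⟩ := h3
    rw [← (h2 i (mem_range.1 hi)).1 hvi]
    exact mem_image_of_mem e hi
  set ed : Fin ℓ × Fin ℓ → Finset (Fin ℓ) := fun p => insert p.2 (E0.erase p.1) with hed
  have hedinj : Set.InjOn ed P := by
    rintro ⟨x, v⟩ hp ⟨x', v'⟩ hq hpq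
    have hp' := (hPm _).1 (mem_coe.1 hp)
    have hq' := (hPm _).1 (mem_coe.1 hq)
    dsimp only at hp' hq'
    have h1 := ((hlm _ _).1 hp'.2).1
    have h2 := ((hlm _ _).1 hq'.2).1
    have h3 : insert v (E0.erase x) = insert v' (E0.erase x') := hpq
    have hv : v = v' := by
      have h4 : v ∈ insert v' (E0.erase x') := by
        rw [← h3]
        exact mem_insert_self _ _
      rw [mem_insert] at h4
      rcases h4 with h4 | h4
      · exact h4
      · exact absurd (mem_of_mem_erase h4) h1
    have hx : x = x' := by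
      by_contra hne
      have h4 : x' ∈ insert v (E0.erase x) :=
        mem_insert_of_mem (mem_erase.2 ⟨fun h => hne h.symm, hq'.1⟩)
      rw [h3, mem_insert] at h4
      rcases h4 with h4 | h4
      · exact h2 (h4 ▸ hq'.1)
      · exact (mem_erase.1 h4).1 rfl
    rw [hv, hx]
  set L := P.image ed with hL
  have hLcard : L.card = P.card := card_image_of_injOn hedinj
  have hLF : L ⊆ F := by
    intro g hg
    rw [hL, mem_image] at hg
    obtain ⟨p, hp, rfl⟩ := hg
    exact hledge _ _ ((hPm p).1 hp).2
  have hgrow1 : Grow r E0 (F \ L) := by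
    refine hgrow0.remove L hLF ?_
    intro g hg
    rw [hL, mem_image] at hg
    obtain ⟨p, hp, rfl⟩ := hg
    have hp' := (hPm p).1 hp
    obtain ⟨h1, h2⟩ := (hlm _ _).1 hp'.2
    refine ⟨p.1, hp'.1, p.2, h1, rfl, ?_⟩
    intro g' hg' hv
    rw [hF, mem_image] at hg'
    obtain ⟨i, hi, rfl⟩ := hg'
    exact (h2 i (mem_range.1 hi)).1 hv
  set q := (F \ L).card with hq
  have hqP : q + P.card = m := by
    rw [hq, card_sdiff_of_subset hLF, hFcard, hLcard]
    have := card_le_card hLF
    rw [hLcard, hFcard] at this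
    omega
  -- prefix sums
  let b : Fin r → ℕ := fun i => (leaves e m E0 (y i)).card
  have hPcard : P.card = ∑ i : Fin r, b i := by
    have h1 : P = univ.biUnion fun i : Fin r => (leaves e m E0 (y i)).image fun v => (y i, v) := by
      ext ⟨x, v⟩
      rw [hPm, mem_biUnion]
      constructor
      · rintro ⟨h2, h3⟩
        obtain ⟨j, hj⟩ := hyex x h2
        dsimp only at h3
        refine ⟨j, mem_univ _, mem_image.2 ⟨v, ?_, ?_⟩⟩
        · rw [hj]
          exact h3
        · rw [hj]
      · rintro ⟨j, _, h2⟩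
        rw [mem_image] at h2
        obtain ⟨v', h3, h4⟩ := h2
        rw [Prod.mk.injEq] at h4
        obtain ⟨h5, h6⟩ := h4
        subst h5
        subst h6
        exact ⟨hym j, h3⟩
    rw [h1, card_biUnion]
    · refine sum_congr rfl fun i _ => ?_
      rw [card_image_of_injective]
      intro a c hac
      exact (Prod.mk.inj hac).2
    · intro i _ j _ hij
      rw [Function.onFun, disjoint_left]
      intro p hp hq
      rw [mem_image] at hp hq
      obtain ⟨v, _, h2⟩ := hp
      obtain ⟨v', _, h3⟩ := hq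
      apply hij
      apply hy
      have : (y i, v) = (y j, v') := h2.trans h3.symm
      exact (Prod.mk.inj this).1
  have hpre : ∀ k, k < r → k * (m - 1) ≤ r * ∑ i ∈ univ.filter (fun i : Fin r => i.val < k), b i := by
    intro k hk
    rcases Nat.eq_zero_or_pos k with rfl | hk0
    · simp
    · obtain ⟨A, hA, hAk, hAs⟩ := hleaf k hk0 hk
      refine hAs.trans (Nat.mul_le_mul_left r ?_)
      have h1 : ∑ x ∈ A, (leaves e m E0 x).card =
          ∑ i ∈ univ.filter (fun i : Fin r => y i ∈ A), b i := by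
        have h2 : (univ.filter fun i : Fin r => y i ∈ A).image y = A := by
          ext x
          rw [mem_image]
          constructor
          · rintro ⟨i, hi, rfl⟩
            exact (mem_filter.1 hi).2
          · intro hx
            obtain ⟨j, hj⟩ := hyex x (hA hx)
            exact ⟨j, mem_filter.2 ⟨mem_univ _, by rw [hj]; exact hx⟩, hj⟩
        conv_lhs => rw [← h2]
        rw [sum_image fun a _ c _ hac => hy hac]
      rw [h1]
      refine sum_le_top b hmono _ ?_ hk
      rw [← hAk]
      have h2 : (univ.filter fun i : Fin r => y i ∈ A).image y = A := by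
        ext x
        rw [mem_image]
        constructor
        · rintro ⟨i, hi, rfl⟩
          exact (mem_filter.1 hi).2
        · intro hx
          obtain ⟨j, hj⟩ := hyex x (hA hx)
          exact ⟨j, mem_filter.2 ⟨mem_univ _, by rw [hj]; exact hx⟩, hj⟩
      conv_rhs => rw [← h2]
      rw [card_image_of_injective _ hy]
  have hsplit : ∀ k, ∑ i ∈ univ.filter (fun i : Fin r => i.val < k), b i +
      ∑ i ∈ univ.filter (fun i : Fin r => ¬ i.val < k), b i = P.card := by
    intro k
    rw [hPcard]
    exact sum_filter_add_sum_filter_not _ _ _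
  -- the map on the root
  obtain ⟨E1, hE1⟩ : E.Nonempty := by
    rw [← card_pos, hH' E hE]
    omega
  let φ0 : Fin ℓ → Fin n := fun x => if h : ∃ j, y j = x then z h.choose else E1
  have hφ0y : ∀ j, φ0 (y j) = z j := by
    intro j
    have h : ∃ j', y j' = y j := ⟨j, rfl⟩
    have h1 : φ0 (y j) = z h.choose := dif_pos h
    rw [h1, hy h.choose_spec]
  have hφ0E : E0.image φ0 = E := by
    rw [← hyE, ← hzE, image_image]
    refine image_congr fun j _ => ?_
    exact hφ0y j
  have hfin : q ≤ m := by omega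
  have hmm : m - 1 + 1 = m := by omega
  -- embedding of the main part
  have hqd : ∀ g ∈ ∂ H', q ≤ (nb H' g).card := by
    intro g hg
    have h1 := hcod' g hg
    have h2 := hpre (r - 1) (by omega)
    have h3 := hsplit (r - 1)
    by_contra hcon2
    push Not at hcon2
    have h4 : (nb H' g).card + 1 ≤ q := hcon2
    have h5 : r * ((nb H' g).card + 1) ≤ r * q := Nat.mul_le_mul_left r h4
    have h6 : r * ∑ i ∈ univ.filter (fun i : Fin r => i.val < r - 1), b i ≤ r * P.card :=
      Nat.mul_le_mul_left r (by omega)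
    have h7 : r * q + r * P.card = r * m := by rw [← mul_add, hqP]
    have h8 : (r - 1) * (m - 1) + (m - 1) = r * (m - 1) := by
      rw [← Nat.succ_mul]
      congr 1
      omega
    have h9 : r * (m - 1) + r = r * m := by
      rw [← Nat.mul_succ]
      congr 1
    nlinarith
  obtain ⟨φ, hφ, hφφ⟩ := hgrow1.embed hH' hE0r (N := q) le_rfl hqd (φ0 := φ0) (by
    rw [hφ0E]
    exact hE)
  have hUcard := hgrow1.card_union hE0r
  rw [← hq] at hUcard
  have hE0U : E0 ⊆ (F \ L).biUnion id := fun x hx => mem_union_of hgrow1.root_mem hx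
  -- the image of a facet of the root
  have himg : ∀ j, (E0.erase (y j)).image φ = E.erase (z j) := by
    intro j
    have h1 : (E0.erase (y j)).image φ = (E0.erase (y j)).image φ0 :=
      image_congr fun x hx => hφφ x (mem_of_mem_erase (mem_coe.1 hx))
    rw [h1]
    ext w
    rw [mem_image, mem_erase, ← hφ0E, mem_image]
    constructor
    · rintro ⟨x, hx, rfl⟩
      rw [mem_erase] at hx
      refine ⟨?_, x, hx.2, rfl⟩
      obtain ⟨k, rfl⟩ := hyex x hx.2
      rw [hφ0y]
      intro h2
      exact hx.1 (by rw [hz h2])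
    · rintro ⟨h2, x, hx, rfl⟩
      refine ⟨x, mem_erase.2 ⟨?_, hx⟩, rfl⟩
      rintro rfl
      exact h2 (hφ0y j)
  obtain ⟨φ', hφ', -⟩ := hφ.leaves hH' P (fun p => p.2) (fun p => E0.erase p.1)
    (fun p hp => (erase_subset _ _).trans hE0U)
    (fun p hp => by
      rw [card_erase_of_mem ((hPm p).1 hp).1, hE0r]
      omega)
    (by
      intro p hp hpU
      rw [mem_biUnion] at hpU
      obtain ⟨g, hg, hpg⟩ := hpU
      rw [mem_sdiff] at hg
      apply hg.2
      rw [hL, mem_image]
      refine ⟨p, hp, ?_⟩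
      have h1 := ((hlm _ _).1 ((hPm p).1 hp).2).2
      rw [hF, mem_image] at hg
      obtain ⟨⟨i, hi, rfl⟩, _⟩ := hg
      exact ((h1 i (mem_range.1 hi)).1 hpg).symm)
    (by
      intro p hp p' hp' hpp
      have h1 := ((hlm _ _).1 ((hPm p).1 hp).2).2
      have h2 := ((hlm _ _).1 ((hPm p').1 hp').2).2
      apply hedinj hp hp'
      have h3 := hledge _ _ ((hPm p).1 hp).2
      rw [hF, mem_image] at h3
      obtain ⟨i, hi, h4⟩ := h3
      have h5 : p.2 ∈ e i := by
        rw [h4]
        exact mem_insert_self _ _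
      have hpp' : p.2 = p'.2 := hpp
      show insert p.2 (E0.erase p.1) = insert p'.2 (E0.erase p'.1)
      rw [← h4]
      exact (h2 i (mem_range.1 hi)).1 (hpp' ▸ h5))
    (by
      intro P' hP' hne
      -- the smallest index which occurs
      have hex : ∃ j : Fin r, ∃ p ∈ P', p.1 = y j := by
        obtain ⟨p, hp⟩ := hne
        obtain ⟨j, hj⟩ := hyex p.1 ((hPm p).1 (hP' hp)).1
        exact ⟨j, p, hp, hj.symm⟩
      set J := univ.filter (fun j : Fin r => ∃ p ∈ P', p.1 = y j) with hJ
      have hJne : J.Nonempty := by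
        obtain ⟨j, hj⟩ := hex
        exact ⟨j, mem_filter.2 ⟨mem_univ _, hj⟩⟩
      have hjJ := J.min'_mem hJne
      obtain ⟨j, hj⟩ : ∃ j, j = J.min' hJne := ⟨_, rfl⟩
      rw [← hj, hJ, mem_filter] at hjJ
      obtain ⟨_, p, hp, hpj⟩ := hjJ
      refine ⟨p, hp, ?_⟩
      have hmin : ∀ p ∈ P', ∀ k, p.1 = y k → j ≤ k := by
        intro p hp k hk
        rw [hj]
        exact J.min'_le k (mem_filter.2 ⟨mem_univ _, p, hp, hk⟩)
      have hP'card : P'.card ≤ ∑ i ∈ univ.filter (fun i : Fin r => ¬ i.val < j.val), b i := by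
        have h1 : P' ⊆ (univ.filter (fun i : Fin r => ¬ i.val < j.val)).biUnion
            fun i : Fin r => (leaves e m E0 (y i)).image fun v => (y i, v) := by
          rintro ⟨x, v⟩ hxv
          have h2 := (hPm _).1 (hP' hxv)
          obtain ⟨k, hk⟩ := hyex x h2.1
          rw [mem_biUnion]
          refine ⟨k, mem_filter.2 ⟨mem_univ _, ?_⟩, mem_image.2 ⟨v, ?_, ?_⟩⟩
          · have h3 := hmin _ hxv k hk.symm
            rw [not_lt]
            exact Fin.le_def.1 h3
          · rw [hk]
            exact h2.2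
          · rw [hk]
        refine (card_le_card h1).trans (card_biUnion_le.trans (sum_le_sum fun i _ => ?_))
        exact card_image_le
      have h1 := hpre j.val j.isLt
      have h2 := hsplit j.val
      have h3 := hzd j
      rw [hpj, himg j, card_erase_of_mem (hym j), hE0r]
      have hjr := j.isLt
      set S1 := ∑ i ∈ univ.filter (fun i : Fin r => i.val < j.val), b i with hS1
      set d := (nb H' (E.erase (z j))).card with hd
      have h4 : q + P'.card + S1 ≤ m := by omega
      have h5 : q + P'.card ≤ d := by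
        by_contra hcon2
        push Not at hcon2
        have h6 : d + 1 + S1 ≤ m := by omega
        have h7 : r * (d + 1 + S1) ≤ r * m := Nat.mul_le_mul_left r h6
        have h8 : (r - j.val) * (m - 1) + j.val * (m - 1) = r * (m - 1) := by
          rw [← add_mul]
          congr 1
          omega
        have h9 : r * (m - 1) + r = r * m := by
          rw [← Nat.mul_succ]
          congr 1
        nlinarith
      omega)
  apply hfree
  have hinj : Function.Injective φ' := by
    rw [← Set.injOn_univ]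
    refine hφ'.1.mono ?_
    intro v _
    have h1 : v ∈ F.biUnion id := by
      rw [hFU]
      exact mem_univ v
    rw [mem_biUnion] at h1
    obtain ⟨g, hg, hvg⟩ := h1
    rw [mem_coe, mem_union]
    by_cases h2 : g ∈ L
    · rw [hL, mem_image] at h2
      obtain ⟨p, hp, rfl⟩ := h2
      have h3 : v ∈ insert p.2 (E0.erase p.1) := hvg
      rw [mem_insert] at h3
      rcases h3 with rfl | h3
      · exact Or.inr (mem_image_of_mem (fun p : Fin ℓ × Fin ℓ => p.2) hp)
      · exact Or.inl (hE0U (mem_of_mem_erase h3))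
    · exact Or.inl (mem_biUnion.2 ⟨g, mem_sdiff.2 ⟨hg, h2⟩, hvg⟩)
  refine ⟨⟨φ', hinj⟩, fun i hi => ?_⟩
  rw [map_eq_image]
  apply hsub
  have hiF : e i ∈ F := mem_image_of_mem e (mem_range.2 hi)
  by_cases h2 : e i ∈ L
  · exact (hφ'.2 (e i) (mem_union_right _ h2)).2
  · exact (hφ'.2 (e i) (mem_union_left _ (mem_sdiff.2 ⟨hiF, h2⟩))).2

end Pool.Agent.MP02973f
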