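import Pool.Agent.Lib.MP_02973f_co.Read

/-!
# The depth first search of a tight tree along the reading process
-/

set_option autoImplicit false
set_option linter.unusedSectionVars false

open Finset
open scoped Classical

namespace Pool.Agent.Lib.MP_02973f_co

/-- shapes of rooted ordered tight trees: `graft T d B` is `T` with one more (last) branch `B`
at the root, where the root edge of `B` arises from the root edge of `T` by replacing the vertex
number `d` by a new vertex -/
inductive TT (r : ℕ) : Type
  | single : TT r
  | graft : TT r → Fin r → TT r → TT r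

/-- number of edges -/
def TT.size {r : ℕ} : TT r → ℕ
  | .single => 1
  | .graft T _ B => T.size + B.size

theorem TT.size_pos {r : ℕ} (T : TT r) : 0 < T.size := by
  induction T with
  | single => simp [TT.size]
  | graft T d B ih1 ih2 => simp only [TT.size]; omega

variable {V : Type*} [DecidableEq V] {r : ℕ}

/-- the tuple `x` is an edge -/
def Ed (H : Finset (Finset V)) (x : Fin r → V) : Prop := Finset.univ.image x ∈ H

/-- the vertices by which the vertex number `d` of the ordered edge `x` may be replaced -/
def Lk (H : Finset (Finset V)) (x : Fin r → V) (d : Fin r) (v : V) : Prop :=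
  Ed H (Function.update x d v)

/-- embedding `T` with root `x`: the reward `k` is paid for the unread set at success -/
noncomputable def proc (H : Finset (Finset V)) :
    TT r → (Fin r → V) → (Finset V → ℝ) → Finset V → ℝ
  | .single, _, k, R => k R
  | .graft T d B, x, k, R =>
      proc H T x (fun R₁ => rd (Lk H x d) (fun v R₂ => proc H B (Function.update x d v) k R₂) R₁) R

theorem proc_mono (H : Finset (Finset V)) (T : TT r) : ∀ (x : Fin r → V)
    (k k' : Finset V → ℝ), (∀ R, k R ≤ k' R) → ∀ R, proc H T x k R ≤ proc H T x k' R := by
  induction T with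
  | single => intro x k k' h R; exact h R
  | graft T d B ih1 ih2 =>
    intro x k k' h R
    exact ih1 x _ _ (fun R₁ => rd_mono (fun v R₂ => ih2 _ _ _ h R₂) R₁) R

theorem proc_sub (H : Finset (Finset V)) (T : TT r) : ∀ (x : Fin r → V)
    (k k' : Finset V → ℝ) (R : Finset V),
    proc H T x (fun R => k R - k' R) R = proc H T x k R - proc H T x k' R := by
  induction T with
  | single => intro x k k' R; rfl
  | graft T d B ih1 ih2 =>
    intro x k k' R
    simp only [proc]
    rw [← ih1]
    congr 1
    funext R₁
    rw [← rd_sub]
    congr 1
    funext v R₂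
    exact ih2 _ _ _ _

theorem proc_zero (H : Finset (Finset V)) (T : TT r) (x : Fin r → V) (R : Finset V) :
    proc H T x (fun _ => 0) R = 0 := by
  have := proc_sub H T x (fun _ => 0) (fun _ => 0) R
  simpa using this

theorem proc_nonneg (H : Finset (Finset V)) (T : TT r) (x : Fin r → V)
    {k : Finset V → ℝ} (h : ∀ R, 0 ≤ k R) (R : Finset V) : 0 ≤ proc H T x k R := by
  have := proc_mono H T x (fun _ => 0) k h R
  rwa [proc_zero] at this

theorem proc_one_le (H : Finset (Finset V)) (T : TT r) : ∀ (x : Fin r → V) (R : Finset V),
    proc H T x one R ≤ one R := by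
  induction T with
  | single => intro x R; exact le_rfl
  | graft T d B ih1 ih2 =>
    intro x R
    refine le_trans (proc_mono H T x _ one (fun R₁ => ?_) R) (ih1 x R)
    exact le_trans (rd_mono (fun v R₂ => ih2 _ R₂) R₁) (rd_one_le _ _)

/-- **Domination** (for a fixed root edge): returning to the root edge after the
embedding of `T` -/
theorem US_proc_le (H : Finset (Finset V)) (T : TT r) : ∀ (x : Fin r → V)
    (g : Finset V → ℝ), (∀ R, 0 ≤ g R) → ∀ G, US (proc H T x g) G ≤ US g G := by
  induction T with
  | single => intro x g _ G; exact le_rfl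
  | graft T d B ih1 ih2 =>
    intro x g hg G
    refine le_trans (ih1 x _ (fun R₁ => rd_nonneg (fun v R₂ => proc_nonneg H B _ hg R₂) R₁) G) ?_
    rw [US_rd]
    refine le_trans (rd_mono (fun v R₂ => ih2 (Function.update x d v) g hg R₂) G) ?_
    exact rd_US_le _ hg G

end Pool.Agent.Lib.MP_02973f_co
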