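import Pool.Agent.Lib.MP_02973f_co.Exist

/-!
# Kalai's conjecture on tight trees: trees with a trunk of size `c`
-/

namespace Pool.Agent.MP02973f

open Finset
open scoped FinsetFamily

variable {α V : Type*} [DecidableEq α] [DecidableEq V] [Fintype α] [Fintype V]

/-- the average of `1 / d` for a facet of an edge of the trunk -/
theorem MeasAt.sum_inv {H : Finset (Finset V)} {r i : ℕ} {e : ℕ → Finset α} {B : ℝ}
    {W : (α → V) → ℝ} (hW : MeasAt H e i B W) (hH : ∀ E ∈ H, E.card = r)
    (hV : 0 < Fintype.card V) {j : ℕ} (hj : j < i) (hjr : (e j).card = r) {S : Finset α}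
    (hS : S ⊆ e j) (hSr : S.card + 1 = r) :
    ∑ φ : α → V, W φ * (1 / ((nb H (S.image φ)).card : ℝ)) =
      ((∂ H).card / r) * cst α V r := by
  obtain ⟨u, hu, hej⟩ := exists_insert hjr hS hSr
  rw [hW.unif j hj (fun φ => 1 / ((nb H (S.image φ)).card : ℝ)), hej]
  · exact MP02973f.sum_inv hH hV hu hSr
  · intro φ x y hx
    have : x ∉ S := fun h => hx (hS h)
    dsimp only
    rw [image_update_of_notMem this]

omit [Fintype α] [DecidableEq α] in
theorem inv_pred_le {μ d : ℝ} (hμ : 1 < μ) (hd : μ < d) : 1 / (d - 1) ≤ μ / (μ - 1) * (1 / d) := by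
  have h1 : 0 < d - 1 := by linarith
  have h2 : 0 < μ - 1 := by linarith
  have h3 : 0 < d := by linarith
  rw [div_mul_div_comm, mul_one, div_le_div_iff₀ h1 (mul_pos h2 h3)]
  nlinarith

open Classical in
theorem exists_good {H : Finset (Finset V)} {r c m : ℕ} {e : ℕ → Finset α} (hr : 2 ≤ r)
    (hc : 1 ≤ c) (hcm : c < m) (hH : ∀ E ∈ H, E.card = r) (hb : Build r e c)
    {X μ : ℝ} (hX : X = (m - c) + (c - 1) * (c - 2) / 2 + r * (c - 1)) (hμ : μ = X / r)
    (hcard : μ * (∂ H).card < H.card) (hcod : ∀ g ∈ ∂ H, μ < (nb H g).card)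
    (p : ℕ → ℕ) (S : ℕ → Finset α) (hp : ∀ i ∈ Ico c m, p i < c) (hS : ∀ i ∈ Ico c m, S i ⊆ e (p i))
    (hSr : ∀ i ∈ Ico c m, (S i).card + 1 = r) :
    ∃ φ : α → V, Set.InjOn φ ((range c).biUnion e : Finset α) ∧ (∀ j < c, (e j).image φ ∈ H) ∧
      ∑ i ∈ Ico c m, 1 / ((nb H ((S i).image φ)).card : ℝ) < 1 - (c - 1) / μ := by
  have hr0 : (0 : ℝ) < r := by
    have : 0 < r := by omega
    exact_mod_cast this
  have hc1 : (1 : ℝ) ≤ c := by exact_mod_cast hc
  have hm1 : (c : ℝ) + 1 ≤ m := by exact_mod_cast hcm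
  have hQ : (0 : ℝ) ≤ (c - 1) * (c - 2) / 2 := by
    rcases Nat.lt_or_ge 1 c with h | h
    · have : (2 : ℝ) ≤ c := by exact_mod_cast h
      have h1 : (0 : ℝ) ≤ (c - 1) * (c - 2) := mul_nonneg (by linarith) (by linarith)
      linarith
    · have : c = 1 := by omega
      subst this
      norm_num
  have hXpos : r * ((c : ℝ) - 1) < X := by
    rw [hX]
    linarith
  have hX0 : 0 < X := by
    have : 0 ≤ r * ((c : ℝ) - 1) := mul_nonneg hr0.le (by linarith)
    linarith
  have hμ0 : 0 < μ := by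
    rw [hμ]
    positivity
  have hμX : r * μ = X := by
    rw [hμ]
    field_simp
  have hμc : (c : ℝ) - 1 < μ := by
    rw [hμ, lt_div_iff₀ hr0]
    linarith
  have hHne : H.Nonempty := by
    rw [← card_pos]
    have h1 : (0 : ℝ) ≤ μ * (∂ H).card := mul_nonneg hμ0.le (Nat.cast_nonneg _)
    have h2 : (0 : ℝ) < H.card := by linarith
    exact_mod_cast h2
  have hV : 0 < Fintype.card V := by
    obtain ⟨E, hE⟩ := hHne
    have h1 := hH E hE
    have h2 : E.Nonempty := by
      rw [← card_pos]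
      omega
    obtain ⟨x, _⟩ := h2
    exact Fintype.card_pos_iff.2 ⟨x⟩
  -- the constants
  set K : ℝ := ((∂ H).card / r) * cst α V r with hK
  have hcst := cst_pos α V hV r
  have hK0 : 0 ≤ K := by
    rw [hK]
    positivity
  set B : ℝ := μ / (μ - 1) * K with hBdef
  have hμ1 : 1 < c → 1 < μ := by
    intro h
    have : (2 : ℝ) ≤ c := by exact_mod_cast h
    linarith
  have hd : 1 < c → ∀ g ∈ ∂ H, 2 ≤ (nb H g).card := by
    intro h g hg
    have h1 := hcod g hg
    have h2 := hμ1 h
    have h3 : (1 : ℝ) < (nb H g).card := by linarith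
    have h4 : 1 < (nb H g).card := by exact_mod_cast h3
    omega
  have hB : 1 < c → ∀ (S : Finset α) (u : α), u ∉ S → S.card + 1 = r → ∑ φ : α → V,
      (if (insert u S).image φ ∈ H then 1 / (((nb H (S.image φ)).card : ℝ) - 1) else 0) ≤ B := by
    intro h S u hu hS
    rw [hBdef, hK, ← sum_inv hH hV hu hS, mul_sum]
    refine sum_le_sum fun φ _ => ?_
    split_ifs with h1
    · refine inv_pred_le (hμ1 h) (hcod _ ?_)
      rw [image_insert] at h1
      have h2 : (S.image φ).card + 1 ≤ r := by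
        have := card_image_le (s := S) (f := φ)
        omega
      exact (nb_nonempty_iff hH h2).1 ⟨_, mem_nb.2 h1⟩
    · rw [mul_zero]
  obtain ⟨W, hW⟩ := exists_meas hH hV hb hd B hB hc le_rfl
  -- total mass
  have hN : ∑ φ, W φ = H.card * cst α V r := by
    have h1 := hW.unif 0 (by omega) (fun _ => 1) (fun _ _ _ _ => rfl)
    simp only [mul_one] at h1
    rw [h1, count_mem hV (e 0) H fun E hE => by rw [hb.1, hH E hE], hb.1]
  -- the mean of the sum over the leaves
  set θ : ℝ := 1 - (c - 1) / μ with hθ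
  have hθ0 : 0 < θ := by
    rw [hθ, sub_pos, div_lt_one hμ0]
    exact hμc
  set Zf : (α → V) → ℝ := fun φ => ∑ i ∈ Ico c m, 1 / ((nb H ((S i).image φ)).card : ℝ) with hZ
  have hZn : ∀ φ, 0 ≤ Zf φ := by
    intro φ
    exact sum_nonneg fun i _ => by positivity
  have hZsum : ∑ φ, W φ * Zf φ = (m - c) * K := by
    have h1 : ∀ φ, W φ * Zf φ =
        ∑ i ∈ Ico c m, W φ * (1 / ((nb H ((S i).image φ)).card : ℝ)) := by
      intro φ
      rw [hZ, mul_sum]
    rw [sum_congr rfl fun φ _ => h1 φ, sum_comm]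
    have h2 : ∀ i ∈ Ico c m, ∑ φ : α → V, W φ * (1 / ((nb H ((S i).image φ)).card : ℝ)) = K :=
      fun i hi => hW.sum_inv hH hV (hp i hi) (hb.card (hp i hi)) (hS i hi) (hSr i hi)
    rw [sum_congr rfl h2, sum_const, nsmul_eq_mul, Nat.card_Ico, Nat.cast_sub hcm.le]
  have hcoll := hW.coll
  -- the main inequality
  have hkey : (m - c) * K + θ * (((c : ℝ) - 1) * (c - 2) / 2 * B) < θ * ∑ φ, W φ := by
    have h1 : X * K < ∑ φ, W φ := by
      rw [hN, hK, ← hμX]
      have h2 : r * μ * ((∂ H).card / r * cst α V r) = μ * (∂ H).card * cst α V r := by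
        field_simp
      rw [h2]
      exact mul_lt_mul_of_pos_right hcard hcst
    have h2 : θ * (X * K) < θ * ∑ φ, W φ := mul_lt_mul_of_pos_left h1 hθ0
    have h3 : θ * X = (m - c) + (c - 1) * (c - 2) / 2 := by
      rw [hθ, ← hμX]
      have h4 : (1 - ((c : ℝ) - 1) / μ) * (r * μ) = r * μ - r * (c - 1) := by
        field_simp
      rw [h4, hμX, hX]
      ring
    have h4 : θ * (((c : ℝ) - 1) * (c - 2) / 2 * B) ≤ ((c : ℝ) - 1) * (c - 2) / 2 * K := by
      rcases Nat.lt_or_ge 1 c with h | h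
      · have h5 := hμ1 h
        have h6 : (2 : ℝ) ≤ c := by exact_mod_cast h
        have h7 : θ * (μ / (μ - 1)) ≤ 1 := by
          have h8 : θ * (μ / (μ - 1)) = (μ - (c - 1)) / (μ - 1) := by
            rw [hθ]
            field_simp
          rw [h8, div_le_one (by linarith)]
          linarith
        calc θ * (((c : ℝ) - 1) * (c - 2) / 2 * B)
            = (θ * (μ / (μ - 1))) * (((c : ℝ) - 1) * (c - 2) / 2 * K) := by
              rw [hBdef]
              ring
          _ ≤ 1 * (((c : ℝ) - 1) * (c - 2) / 2 * K) :=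
              mul_le_mul_of_nonneg_right h7 (mul_nonneg hQ hK0)
          _ = _ := one_mul _
      · have : c = 1 := by omega
        subst this
        norm_num
    have h5 : θ * (X * K) = (m - c) * K + (c - 1) * (c - 2) / 2 * K := by
      rw [← mul_assoc, h3]
      ring
    linarith
  -- a good map
  have hex : ∃ φ, W φ * (Zf φ + θ * (if Set.InjOn φ ((range c).biUnion e : Finset α) then 0 else 1))
      < θ * W φ := by
    by_contra hcon
    push Not at hcon
    have h1 := sum_le_sum fun (φ : α → V) (_ : φ ∈ univ) => hcon φ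
    rw [← mul_sum] at h1
    have h2 : ∑ φ, W φ * (Zf φ + θ * (if Set.InjOn φ ((range c).biUnion e : Finset α)
        then 0 else 1)) = ∑ φ, W φ * Zf φ + θ * ∑ φ : α → V,
          (if Set.InjOn φ ((range c).biUnion e : Finset α) then 0 else W φ) := by
      rw [mul_sum, ← sum_add_distrib]
      refine sum_congr rfl fun φ _ => ?_
      split_ifs <;> ring
    rw [h2, hZsum] at h1
    have h3 := mul_le_mul_of_nonneg_left hcoll hθ0.le
    linarith
  obtain ⟨φ, hφ⟩ := hex
  have hW0 : 0 < W φ := by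
    rcases (hW.nonneg φ).lt_or_eq with h | h
    · exact h
    · rw [← h] at hφ
      simp at hφ
  have h1 : Zf φ + θ * (if Set.InjOn φ ((range c).biUnion e : Finset α) then 0 else 1) < θ := by
    rw [mul_comm θ (W φ)] at hφ
    exact lt_of_mul_lt_mul_left hφ hW0.le
  have h2 : Set.InjOn φ ((range c).biUnion e : Finset α) := by
    by_contra hcon
    rw [if_neg hcon, mul_one] at h1
    have := hZn φ
    linarith
  rw [if_pos h2, mul_zero, add_zero] at h1
  exact ⟨φ, h2, hW.supp φ hW0.ne', h1⟩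

end Pool.Agent.MP02973f
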