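import Pool.Agent.Lib.MP_02973f_co.Trunk

/-!
# Kalai's conjecture on tight trees: the bound for trees with a trunk of size `c`
-/

namespace Pool.Agent.MP02973f

open Finset
open scoped FinsetFamily

variable {α V : Type*} [DecidableEq α] [DecidableEq V] [Fintype α] [Fintype V]

theorem trunk_main {H : Finset (Finset V)} {r c m : ℕ} {e : ℕ → Finset α} (hr : 2 ≤ r)
    (hc : 1 ≤ c) (hcm : c < m) (hH : ∀ E ∈ H, E.card = r) (h0 : (e 0).card = r)
    (htree : ∀ i, 0 < i → i < m → ∃ j, j < i ∧ j < c ∧ ∃ S ⊆ e j, S.card + 1 = r ∧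
      ∃ v, v ∉ (range i).biUnion e ∧ e i = insert v S)
    (hfree : ¬ ∃ φ : α → V, Set.InjOn φ ((range m).biUnion e : Finset α) ∧
      ∀ i < m, (e i).image φ ∈ H) :
    (H.card : ℝ) ≤ (((m : ℝ) - 1) / r + (c - 1) * (1 + (c - 4) / (2 * r))) * (∂ H).card := by
  by_contra hcon
  push Not at hcon
  have hr0 : (0 : ℝ) < r := by
    have : 0 < r := by omega
    exact_mod_cast this
  have hc1 : (1 : ℝ) ≤ c := by exact_mod_cast hc
  have hm1 : (c : ℝ) + 1 ≤ m := by exact_mod_cast hcm
  have hQ : (0 : ℝ) ≤ (c - 1) * (c - 2) / 2 := by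
    rcases Nat.lt_or_ge 1 c with h | h
    · have : (2 : ℝ) ≤ c := by exact_mod_cast h
      have h1 : (0 : ℝ) ≤ (c - 1) * (c - 2) := mul_nonneg (by linarith) (by linarith)
      linarith
    · have : c = 1 := by omega
      subst this
      norm_num
  obtain ⟨X, hX⟩ : ∃ X : ℝ, X = (m - c) + (c - 1) * (c - 2) / 2 + r * (c - 1) := ⟨_, rfl⟩
  obtain ⟨μ, hμ⟩ : ∃ μ : ℝ, μ = X / r := ⟨_, rfl⟩
  have hXpos : r * ((c : ℝ) - 1) < X := by
    rw [hX]
    linarith
  have hX0 : 0 < X := by
    have : 0 ≤ r * ((c : ℝ) - 1) := mul_nonneg hr0.le (by linarith)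
    linarith
  have hμ0 : 0 < μ := by
    rw [hμ]
    positivity
  have hμc : (c : ℝ) - 1 < μ := by
    rw [hμ, lt_div_iff₀ hr0]
    linarith
  have hμeq : ((m : ℝ) - 1) / r + (c - 1) * (1 + (c - 4) / (2 * r)) = μ := by
    rw [hμ, hX]
    field_simp
    ring
  rw [hμeq] at hcon
  obtain ⟨H', hsub, hcard, hcod⟩ := exists_pruned hμ0.le H hH hcon
  have hH' : ∀ E ∈ H', E.card = r := fun E hE => hH E (hsub hE)
  have hb : Build r e c := ⟨h0, fun i hi hic => by
    obtain ⟨j, hj, _, S, hS, hSr, hv⟩ := htree i hi (by omega)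
    exact ⟨j, hj, S, hS, hSr, hv⟩⟩
  -- the data of the leaves
  have hdata : ∀ i, ∃ (p : ℕ) (S : Finset α) (v : α), i ∈ Ico c m → p < c ∧ S ⊆ e p ∧
      S.card + 1 = r ∧ v ∉ (range i).biUnion e ∧ e i = insert v S := by
    intro i
    by_cases hi : i ∈ Ico c m
    · have h1 := mem_Ico.1 hi
      obtain ⟨j, hj, hjc, S, hS, hSr, v, hv, he⟩ := htree i (by omega) h1.2
      exact ⟨j, S, v, fun _ => ⟨hjc, hS, hSr, hv, he⟩⟩
    · have h2 : (e 0).Nonempty := by
        rw [← card_pos]
        omega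
      obtain ⟨x, _⟩ := h2
      exact ⟨0, ∅, x, fun h => absurd h hi⟩
  choose p S v hp using hdata
  obtain ⟨φ, hinj, hed, hsum⟩ := exists_good hr hc hcm hH' hb hX hμ hcard hcod p S
    (fun i hi => (hp i hi).1) (fun i hi => (hp i hi).2.1) (fun i hi => (hp i hi).2.2.1)
  have hU : ((range c).biUnion e).card + 1 = r + c := hb.card_union hc le_rfl
  have hemb : Emb H' ((range c).biUnion e) ((range c).image e) φ := by
    refine ⟨hinj, fun E hE => ?_⟩
    rw [mem_image] at hE
    obtain ⟨j, hj, rfl⟩ := hE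
    exact ⟨subset_union (mem_range.1 hj), hed j (mem_range.1 hj)⟩
  have hmono : ∀ {i : ℕ}, c ≤ i → (range c).biUnion e ⊆ (range i).biUnion e := fun hi =>
    biUnion_subset_biUnion_of_subset_left e (range_mono hi)
  have hSU : ∀ i ∈ Ico c m, S i ⊆ (range c).biUnion e := fun i hi =>
    (hp i hi).2.1.trans (subset_union (hp i hi).1)
  have hdpos : ∀ i ∈ Ico c m, μ < (nb H' ((S i).image φ)).card := by
    intro i hi
    obtain ⟨h1, h2, h3, _⟩ := hp i hi
    apply hcod
    obtain ⟨u, hu, hej⟩ := exists_insert (hb.card h1) h2 h3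
    have h4 := hed _ h1
    rw [hej, image_insert] at h4
    have h5 : ((S i).image φ).card + 1 ≤ r := by
      have := card_image_le (s := S i) (f := φ)
      omega
    exact (nb_nonempty_iff hH' h5).1 ⟨_, mem_nb.2 h4⟩
  obtain ⟨φ', hφ', -⟩ := hemb.leaves hH' (Ico c m) v S hSU (fun i hi => (hp i hi).2.2.1)
    (fun i hi h => (hp i hi).2.2.2.1 (hmono (mem_Ico.1 hi).1 h)) (by
      intro i hi j hj hij
      by_contra hne
      have key : ∀ i ∈ Ico c m, ∀ j ∈ Ico c m, i < j → v i ≠ v j := by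
        intro i hi j hj hlt hij
        apply (hp j hj).2.2.2.1
        rw [← hij]
        apply subset_union hlt
        rw [(hp i hi).2.2.2.2]
        exact mem_insert_self _ _
      rcases Nat.lt_or_gt_of_ne hne with h | h
      · exact key i hi j hj h hij
      · exact key j hj i hi h hij.symm) (by
      intro L' hL' hne
      by_contra hcon2
      push Not at hcon2
      have hL0 : (0 : ℝ) < L'.card := by exact_mod_cast card_pos.2 hne
      have h1 : ∀ i ∈ L', ((nb H' ((S i).image φ)).card : ℝ) ≤ c - 1 + L'.card := by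
        intro i hi
        have h2 := hcon2 i hi
        have h3 := (hp i (hL' hi)).2.2.1
        have h4 : (nb H' ((S i).image φ)).card + 1 ≤ c + L'.card := by omega
        have h5 : (((nb H' ((S i).image φ)).card + 1 : ℕ) : ℝ) ≤ ((c + L'.card : ℕ) : ℝ) := by
          exact_mod_cast h4
        push_cast at h5
        linarith
      obtain ⟨i0, hi0⟩ := hne
      have h2 : μ < c - 1 + L'.card := lt_of_lt_of_le (hdpos i0 (hL' hi0)) (h1 i0 hi0)
      have h3 : (0 : ℝ) < c - 1 + L'.card := hμ0.trans h2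
      have h4 : ∑ i ∈ L', 1 / ((c : ℝ) - 1 + L'.card) ≤
          ∑ i ∈ Ico c m, 1 / ((nb H' ((S i).image φ)).card : ℝ) := by
        refine le_trans (sum_le_sum fun i hi => ?_)
          (sum_le_sum_of_subset_of_nonneg hL' fun i _ _ => by positivity)
        exact one_div_le_one_div_of_le (hμ0.trans (hdpos i (hL' hi))) (h1 i hi)
      rw [sum_const, nsmul_eq_mul] at h4
      have h5 : (1 : ℝ) - (c - 1) / μ ≤ L'.card * (1 / ((c : ℝ) - 1 + L'.card)) := by
        have h6 : (L'.card : ℝ) * (1 / ((c : ℝ) - 1 + L'.card)) =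
            1 - (c - 1) / (c - 1 + L'.card) := by
          field_simp
          ring
        rw [h6]
        have h7 : ((c : ℝ) - 1) / (c - 1 + L'.card) ≤ (c - 1) / μ :=
          div_le_div_of_nonneg_left (by linarith) hμ0 h2.le
        linarith
      linarith)
  apply hfree
  refine ⟨φ', ?_, fun i hi => ?_⟩
  · refine hφ'.1.mono ?_
    intro x hx
    rw [mem_coe, mem_biUnion] at hx
    obtain ⟨i, hi, hxi⟩ := hx
    rw [mem_range] at hi
    rw [mem_coe, mem_union]
    rcases Nat.lt_or_ge i c with h1 | h1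
    · exact Or.inl (subset_union h1 hxi)
    · have h2 : i ∈ Ico c m := mem_Ico.2 ⟨h1, hi⟩
      rw [(hp i h2).2.2.2.2, mem_insert] at hxi
      rcases hxi with rfl | hxi
      · exact Or.inr (mem_image_of_mem v h2)
      · exact Or.inl (hSU i h2 hxi)
  · apply hsub
    rcases Nat.lt_or_ge i c with h1 | h1
    · exact (hφ'.2 (e i) (mem_union_left _ (mem_image_of_mem e (mem_range.2 h1)))).2
    · have h2 : i ∈ Ico c m := mem_Ico.2 ⟨h1, hi⟩
      refine (hφ'.2 (e i) (mem_union_right _ ?_)).2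
      rw [(hp i h2).2.2.2.2]
      exact mem_image_of_mem (fun i => insert (v i) (S i)) h2

end Pool.Agent.MP02973f
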